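import Pool.Agent.V11265.Dih.Graph

namespace DihBase

open DihedralGroup Vtx

variable {n : ℕ} (P : Par n)

theorem cast_congrC {i : P.ι} {z w : ℤ} (h : (z : ZMod (2 * P.d i)) = w) :
    (z : ZMod (2 * P.c i)) = w := by
  rw [← sub_eq_zero, ← Int.cast_sub, ZMod.intCast_zmod_eq_zero_iff_dvd] at *
  refine dvd_trans ?_ h
  exact_mod_cast Nat.mul_dvd_mul_left 2 (P.hcd i)

theorem cast_congr2 {D : ℕ} {z w : ℤ} (h : (z : ZMod (2 * D)) = w) : (2 : ℤ) ∣ z - w := by
  rw [← sub_eq_zero, ← Int.cast_sub, ZMod.intCast_zmod_eq_zero_iff_dvd] at h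
  refine dvd_trans ?_ h
  push_cast
  exact Dvd.intro _ rfl

theorem cast_two_iff {z w : ℤ} : (z : ZMod 2) = w ↔ (2 : ℤ) ∣ z - w := by
  rw [← sub_eq_zero, ← Int.cast_sub, ZMod.intCast_zmod_eq_zero_iff_dvd]
  rfl

theorem adj_l1 (v : Vtx P) : (Gr P).Adj l1 v ↔ v = m1 := by
  rw [Gr_adj]; cases v <;> simp [R]

theorem adj_l2 (v : Vtx P) : (Gr P).Adj l2 v ↔ v = k2 := by
  rw [Gr_adj]; cases v <;> simp [R]

theorem adj_k2 (v : Vtx P) : (Gr P).Adj k2 v ↔ v = l2 ∨ v = m2 := by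
  rw [Gr_adj]; cases v <;> simp [R]

theorem adj_m1_T (s : ZMod 2) : (Gr P).Adj m1 (T s) := by
  rw [Gr_adj]; simp [R]

theorem adj_m2_T (s : ZMod 2) : (Gr P).Adj m2 (T s) := by
  rw [Gr_adj]; simp [R]

theorem adj_m1_Y (j : ZMod P.e) : (Gr P).Adj m1 (Y j) := by
  rw [Gr_adj]; simp [R]

theorem adj_m2_Y (j : ZMod P.e) : (Gr P).Adj m2 (Y j) := by
  rw [Gr_adj]; simp [R]

theorem adj_Y (j : ZMod P.e) (v : Vtx P) : (Gr P).Adj (Y j) v ↔ v = m1 ∨ v = m2 := by
  rw [Gr_adj]; cases v <;> simp [R]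

theorem adj_m1_X (i : P.ι) (z : ℤ) : (Gr P).Adj m1 (X i z) ↔ (2 : ℤ) ∣ z := by
  rw [Gr_adj]
  simp only [R, ne_eq, reduceCtorEq, not_false_eq_true, true_and, or_false]
  constructor
  · rintro ⟨w, hw, hw2⟩
    have := cast_congr2 hw
    omega
  · intro h; exact ⟨z, rfl, h⟩

theorem adj_m2_X (i : P.ι) (z : ℤ) : (Gr P).Adj m2 (X i z) ↔ (2 : ℤ) ∣ z + 1 := by
  rw [Gr_adj]
  simp only [R, ne_eq, reduceCtorEq, not_false_eq_true, true_and, or_false]
  constructor
  · rintro ⟨w, hw, hw2⟩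
    have := cast_congr2 hw
    omega
  · intro h; exact ⟨z, rfl, h⟩

theorem adj_F_X (i : P.ι) (y : ZMod (2 * P.c i)) (j : P.ι) (z : ℤ) :
    (Gr P).Adj (F i y) (X j z) ↔ i = j ∧ ((z : ZMod (2 * P.c i)) = y ∨
      ((z - 1 : ℤ) : ZMod (2 * P.c i)) = y) := by
  rw [Gr_adj]
  simp only [R, ne_eq, reduceCtorEq, not_false_eq_true, true_and, or_false]
  constructor
  · rintro ⟨rfl, w, hw, hw2⟩
    refine ⟨rfl, ?_⟩
    have h1 := cast_congrC P hw
    rcases hw2 with h2 | h2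
    · left; rw [← h1, h2]
    · right; rw [← h2]; push_cast; rw [h1]
  · rintro ⟨rfl, h⟩
    exact ⟨rfl, z, rfl, h⟩

theorem adj_T_F (s : ZMod 2) (i : P.ι) (z : ℤ) :
    (Gr P).Adj (T s) (F i z) ↔ (z : ZMod 2) = s := by
  rw [Gr_adj]
  simp only [R, ne_eq, reduceCtorEq, not_false_eq_true, true_and, or_false]
  constructor
  · rintro ⟨w, hw, hw2⟩
    rw [← hw2, cast_two_iff]
    have := cast_congr2 hw
    omega
  · intro h; exact ⟨z, rfl, h⟩

theorem one_ne_zeroD (i : P.ι) : ((1 : ℤ) : ZMod (2 * P.d i)) ≠ 0 := by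
  intro h
  rw [ZMod.intCast_zmod_eq_zero_iff_dvd] at h
  have h1 := P_d2 P i
  have := Int.le_of_dvd (by norm_num) h
  push_cast at this
  omega

theorem adj_X_X (i : P.ι) (z : ℤ) (x : ZMod (2 * P.d i)) :
    (Gr P).Adj (X i z) (X i x) ↔ x = ((z + 1 : ℤ) : ZMod (2 * P.d i)) ∨
      x = ((z - 1 : ℤ) : ZMod (2 * P.d i)) := by
  rw [Gr_adj]
  simp only [R, ne_eq, X.injEq, heq_eq_eq, true_and]
  constructor
  · rintro ⟨-, ⟨w, hw, hw2⟩ | ⟨w, hw, hw2⟩⟩
    · left; rw [← hw2]; push_cast; rw [hw]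
    · right; rw [← hw]; push_cast; push_cast at hw2; rw [← hw2]; ring
  · rintro (h | h)
    · refine ⟨?_, Or.inl ⟨z, rfl, h.symm⟩⟩
      rw [h]
      intro h'
      apply one_ne_zeroD P i
      push_cast at h' ⊢
      linear_combination -h'
    · refine ⟨?_, Or.inr ⟨z - 1, h.symm, by push_cast; ring⟩⟩
      rw [h]
      intro h'
      apply one_ne_zeroD P i
      push_cast at h' ⊢
      linear_combination h'

theorem two_nbrs (v : Vtx P) (h1 : v ≠ l1) (h2 : v ≠ l2) :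
    ∃ u w, u ≠ w ∧ (Gr P).Adj v u ∧ (Gr P).Adj v w := by
  cases v with
  | m1 => exact ⟨T 0, T 1, by simp, adj_m1_T P 0, adj_m1_T P 1⟩
  | l1 => exact absurd rfl h1
  | m2 => exact ⟨T 0, T 1, by simp, adj_m2_T P 0, adj_m2_T P 1⟩
  | k2 => exact ⟨l2, m2, by simp, (adj_k2 P _).2 (Or.inl rfl), (adj_k2 P _).2 (Or.inr rfl)⟩
  | l2 => exact absurd rfl h2
  | T s => exact ⟨m1, m2, by simp, (adj_m1_T P s).symm, (adj_m2_T P s).symm⟩
  | F i y =>
    obtain ⟨z, rfl⟩ := ZMod.intCast_surjective y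
    exact ⟨T z, X i z, by simp, ((adj_T_F P _ i z).2 rfl).symm, (adj_F_X P i _ i z).2 ⟨rfl, Or.inl rfl⟩⟩
  | X i x =>
    obtain ⟨z, rfl⟩ := ZMod.intCast_surjective x
    have h3 : (Gr P).Adj (X i z) (X i ((z + 1 : ℤ) : ZMod (2 * P.d i))) :=
      (adj_X_X P i z _).2 (Or.inl rfl)
    by_cases h : (2 : ℤ) ∣ z
    · exact ⟨m1, _, by simp, ((adj_m1_X P i z).2 h).symm, h3⟩
    · exact ⟨m2, _, by simp, ((adj_m2_X P i z).2 (by omega)).symm, h3⟩
  | Y j => exact ⟨m1, m2, by simp, (adj_m1_Y P j).symm, (adj_m2_Y P j).symm⟩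

section phi

variable {P} (φ : Gr P ≃g Gr P)

theorem phi_adj (v w : Vtx P) : (Gr P).Adj (φ v) (φ w) ↔ (Gr P).Adj v w := φ.map_rel_iff

theorem leaf_image {v : Vtx P} {u : Vtx P} (hv : ∀ w, (Gr P).Adj v w ↔ w = u) :
    φ v = l1 ∨ φ v = l2 := by
  by_contra hcon
  push Not at hcon
  obtain ⟨a, b, hab, ha, hb⟩ := two_nbrs P (φ v) hcon.1 hcon.2
  apply hab
  have h1 : (Gr P).Adj v (φ.symm a) := by
    rw [← phi_adj φ]; simpa using ha
  have h2 : (Gr P).Adj v (φ.symm b) := by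
    rw [← phi_adj φ]; simpa using hb
  rw [hv] at h1 h2
  exact φ.symm.injective (h1.trans h2.symm)

theorem fix_l1 : φ l1 = l1 := by
  rcases leaf_image φ (adj_l1 P) with h | h
  · exact h
  · exfalso
    have h1 : φ m1 = k2 := by
      have := (phi_adj φ l1 m1).2 ((adj_l1 P _).2 rfl)
      rw [h, adj_l2] at this
      exact this
    have h2 : ∀ s : ZMod 2, φ (T s) = m2 := by
      intro s
      have := (phi_adj φ m1 (T s)).2 (adj_m1_T P s)
      rw [h1, adj_k2] at this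
      rcases this with h' | h'
      · exfalso
        have := φ.injective (h'.trans h.symm)
        simp at this
      · exact h'
    have h3 := φ.injective ((h2 0).trans (h2 1).symm)
    simp at h3

theorem fix_m1 : φ m1 = m1 := by
  have := (phi_adj φ l1 m1).2 ((adj_l1 P _).2 rfl)
  rw [fix_l1, adj_l1] at this
  exact this

theorem fix_l2 : φ l2 = l2 := by
  rcases leaf_image φ (adj_l2 P) with h | h
  · exfalso
    have := φ.injective (h.trans (fix_l1 φ).symm)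
    simp at this
  · exact h

theorem fix_k2 : φ k2 = k2 := by
  have := (phi_adj φ l2 k2).2 ((adj_l2 P _).2 rfl)
  rw [fix_l2, adj_l2] at this
  exact this

theorem fix_m2 : φ m2 = m2 := by
  have := (phi_adj φ k2 m2).2 ((adj_k2 P _).2 (Or.inr rfl))
  rw [fix_k2, adj_k2] at this
  rcases this with h | h
  · exfalso
    have := φ.injective (h.trans (fix_l2 φ).symm)
    simp at this
  · exact h

theorem adj_m1_phi (v : Vtx P) : (Gr P).Adj m1 (φ v) ↔ (Gr P).Adj m1 v := by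
  rw [← phi_adj φ m1 v, fix_m1]

theorem adj_m2_phi (v : Vtx P) : (Gr P).Adj m2 (φ v) ↔ (Gr P).Adj m2 v := by
  rw [← phi_adj φ m2 v, fix_m2]

theorem phi_F (i : P.ι) (y : ZMod (2 * P.c i)) : ∃ (i' : P.ι) (w : ℤ), φ (F i y) = F i' w := by
  have h1 : ¬ (Gr P).Adj m1 (φ (F i y)) := by
    rw [adj_m1_phi, Gr_adj]; simp [R]
  have h2 : ¬ (Gr P).Adj m2 (φ (F i y)) := by
    rw [adj_m2_phi, Gr_adj]; simp [R]
  cases h : φ (F i y) with
  | m1 => exfalso; have := φ.injective (h.trans (fix_m1 φ).symm); simp at this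
  | l1 => exfalso; have := φ.injective (h.trans (fix_l1 φ).symm); simp at this
  | m2 => exfalso; have := φ.injective (h.trans (fix_m2 φ).symm); simp at this
  | k2 => exfalso; have := φ.injective (h.trans (fix_k2 φ).symm); simp at this
  | l2 => exfalso; have := φ.injective (h.trans (fix_l2 φ).symm); simp at this
  | T s => rw [h] at h1; exact absurd (adj_m1_T P s) h1
  | F i' y' =>
    obtain ⟨w, rfl⟩ := ZMod.intCast_surjective y'
    exact ⟨i', w, rfl⟩
  | X i' x =>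
    exfalso
    obtain ⟨w, rfl⟩ := ZMod.intCast_surjective x
    rw [h] at h1 h2
    rw [adj_m1_X] at h1
    rw [adj_m2_X] at h2
    omega
  | Y j => rw [h] at h1; exact absurd (adj_m1_Y P j) h1

theorem phi_T (s : ZMod 2) : ∃ s' : ZMod 2, φ (T s) = T s' := by
  have h1 : (Gr P).Adj m1 (φ (T s)) := by
    rw [adj_m1_phi]; exact adj_m1_T P s
  have h2 : (Gr P).Adj m2 (φ (T s)) := by
    rw [adj_m2_phi]; exact adj_m2_T P s
  cases h : φ (T s) with
  | m1 => exfalso; have := φ.injective (h.trans (fix_m1 φ).symm); simp at this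
  | l1 => exfalso; have := φ.injective (h.trans (fix_l1 φ).symm); simp at this
  | m2 => exfalso; have := φ.injective (h.trans (fix_m2 φ).symm); simp at this
  | k2 => exfalso; have := φ.injective (h.trans (fix_k2 φ).symm); simp at this
  | l2 => exfalso; have := φ.injective (h.trans (fix_l2 φ).symm); simp at this
  | T s' => exact ⟨s', rfl⟩
  | F i' y' => exfalso; rw [h, Gr_adj] at h1; simp [R] at h1
  | X i' x =>
    exfalso
    obtain ⟨w, rfl⟩ := ZMod.intCast_surjective x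
    rw [h] at h1 h2
    rw [adj_m1_X] at h1
    rw [adj_m2_X] at h2
    omega
  | Y j =>
    exfalso
    obtain ⟨z, rfl⟩ := ZMod.intCast_surjective s
    have i := Classical.arbitrary P.ι
    have h3 := (phi_adj φ _ _).2 ((adj_T_F P (z : ZMod 2) i z).2 rfl)
    rw [h, adj_Y] at h3
    obtain ⟨i', w, hw⟩ := phi_F φ i z
    rw [hw] at h3
    simp at h3

theorem phi_Y (j : ZMod P.e) : ∃ j' : ZMod P.e, φ (Y j) = Y j' := by
  have h1 : (Gr P).Adj m1 (φ (Y j)) := by
    rw [adj_m1_phi]; exact adj_m1_Y P j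
  have h2 : (Gr P).Adj m2 (φ (Y j)) := by
    rw [adj_m2_phi]; exact adj_m2_Y P j
  cases h : φ (Y j) with
  | m1 => exfalso; have := φ.injective (h.trans (fix_m1 φ).symm); simp at this
  | l1 => exfalso; have := φ.injective (h.trans (fix_l1 φ).symm); simp at this
  | m2 => exfalso; have := φ.injective (h.trans (fix_m2 φ).symm); simp at this
  | k2 => exfalso; have := φ.injective (h.trans (fix_k2 φ).symm); simp at this
  | l2 => exfalso; have := φ.injective (h.trans (fix_l2 φ).symm); simp at this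
  | T s' =>
    exfalso
    obtain ⟨s, hs⟩ := phi_T φ.symm s'
    have : φ.symm (φ (Y j)) = T s := by rw [h]; exact hs
    simp at this
  | F i' y' => exfalso; rw [h, Gr_adj] at h1; simp [R] at h1
  | X i' x =>
    exfalso
    obtain ⟨w, rfl⟩ := ZMod.intCast_surjective x
    rw [h] at h1 h2
    rw [adj_m1_X] at h1
    rw [adj_m2_X] at h2
    omega
  | Y j' => exact ⟨j', rfl⟩

theorem phi_X (i : P.ι) (z : ℤ) : ∃ (i' : P.ι) (w : ℤ), φ (X i z) = X i' w ∧ (2 : ℤ) ∣ w - z := by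
  have h1 : (Gr P).Adj m1 (φ (X i z)) ↔ (2 : ℤ) ∣ z := by
    rw [adj_m1_phi, adj_m1_X]
  have h2 : (Gr P).Adj m2 (φ (X i z)) ↔ (2 : ℤ) ∣ z + 1 := by
    rw [adj_m2_phi, adj_m2_X]
  cases h : φ (X i z) with
  | m1 => exfalso; have := φ.injective (h.trans (fix_m1 φ).symm); simp at this
  | l1 => exfalso; have := φ.injective (h.trans (fix_l1 φ).symm); simp at this
  | m2 => exfalso; have := φ.injective (h.trans (fix_m2 φ).symm); simp at this
  | k2 => exfalso; have := φ.injective (h.trans (fix_k2 φ).symm); simp at this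
  | l2 => exfalso; have := φ.injective (h.trans (fix_l2 φ).symm); simp at this
  | T s =>
    exfalso; rw [h] at h1 h2
    have a1 := h1.1 (adj_m1_T P s)
    have a2 := h2.1 (adj_m2_T P s)
    omega
  | F i' y' =>
    exfalso; rw [h, Gr_adj] at h1 h2
    simp only [R, ne_eq, reduceCtorEq, not_false_eq_true, true_and, or_false, false_iff] at h1 h2
    omega
  | X i' x =>
    obtain ⟨w, rfl⟩ := ZMod.intCast_surjective x
    rw [h] at h1 h2
    rw [adj_m1_X] at h1
    rw [adj_m2_X] at h2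
    exact ⟨i', w, rfl, by omega⟩
  | Y j =>
    exfalso; rw [h] at h1 h2
    have a1 := h1.1 (adj_m1_Y P j)
    have a2 := h2.1 (adj_m2_Y P j)
    omega

/-- `t` is `0` if `φ` fixes the vertices `T s`, and `1` otherwise. -/
theorem exists_t : ∃ t : ℤ, (t = 0 ∨ t = 1) ∧ ∀ s : ZMod 2, φ (T s) = T (s + t) := by
  obtain ⟨a, ha⟩ := phi_T φ 0
  obtain ⟨b, hb⟩ := phi_T φ 1
  have hab : a ≠ b := by
    rintro rfl
    have := φ.injective (ha.trans hb.symm)
    simp at this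
  have key : ∀ a b : ZMod 2, a ≠ b → (a = 0 ∧ b = 1) ∨ (a = 1 ∧ b = 0) := by decide
  have key2 : ∀ s : ZMod 2, s = 0 ∨ s = 1 := by decide
  rcases key a b hab with ⟨rfl, rfl⟩ | ⟨rfl, rfl⟩
  · refine ⟨0, Or.inl rfl, ?_⟩
    intro s
    rcases key2 s with rfl | rfl
    · rw [ha]; rfl
    · rw [hb]; rfl
  · refine ⟨1, Or.inr rfl, ?_⟩
    intro s
    rcases key2 s with rfl | rfl
    · rw [ha]; rfl
    · rw [hb]; rfl

end phi

end DihBase
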