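import Pool.Agent.V11265.Dih.Defs

namespace DihBase

open DihedralGroup

section act

variable {n : ℕ} {S : Type*} [MulAction (DihedralGroup n) S]

/-- every prime divisor of `n` has an active point in `B` -/
def AllAct (n : ℕ) {S : Type*} [MulAction (DihedralGroup n) S] (B : Finset S) : Prop :=
  ∀ q ∈ n.primeFactors, ∃ x ∈ B, Act n q x

theorem gen_rotStab (hn : n ≠ 0) (x : S) :
    ∃ d : ℕ, d ≠ 0 ∧ d ∣ n ∧ ∀ k : ℤ, k ∈ rotStab n x ↔ (d : ℤ) ∣ k := by
  obtain ⟨a, ha⟩ := Int.subgroup_cyclic (rotStab n x)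
  have h1 : ∀ k : ℤ, k ∈ rotStab n x ↔ a ∣ k := by
    intro k
    rw [ha, ← AddSubgroup.zmultiples_eq_closure, Int.mem_zmultiples_iff]
  have h2 : a ∣ (n : ℤ) := (h1 n).1 (n_mem_rotStab x)
  have h3 : a.natAbs ∣ n := by
    have := Int.natAbs_dvd_natAbs.2 h2
    simpa using this
  refine ⟨a.natAbs, ?_, h3, ?_⟩
  · rintro h0
    rw [h0] at h3
    exact hn (Nat.eq_zero_of_zero_dvd h3)
  · intro k
    rw [h1 k, Int.natAbs_dvd]

theorem rot_trivial (hn : n ≠ 0) {B : Finset S} (hB : AllAct n B) (i : ZMod n)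
    (hi : ∀ x ∈ B, (r i : DihedralGroup n) • x = x) : i = 0 := by
  by_contra hne
  have : NeZero n := ⟨hn⟩
  set k := i.val with hk
  have hkn : k < n := ZMod.val_lt i
  have hk0 : k ≠ 0 := by
    intro h
    exact hne ((ZMod.val_eq_zero i).1 h)
  have hik : ((k : ℤ) : ZMod n) = i := by
    rw [hk]; simp
  set g := Nat.gcd k n with hg
  have hgn : g ∣ n := Nat.gcd_dvd_right k n
  have hgk : g ∣ k := Nat.gcd_dvd_left k n
  have hglt : g < n := lt_of_le_of_lt (Nat.le_of_dvd (Nat.pos_of_ne_zero hk0) hgk) hkn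
  have hg0 : g ≠ 0 := by
    intro h; rw [h] at hgn; exact hn (Nat.eq_zero_of_zero_dvd hgn)
  obtain ⟨m, hm⟩ := hgn
  have hm1 : m ≠ 1 := by
    rintro rfl
    omega
  obtain ⟨q, hq, hqm⟩ := Nat.exists_prime_and_dvd hm1
  obtain ⟨m', rfl⟩ := hqm
  have hqn : q ∈ n.primeFactors := by
    rw [Nat.mem_primeFactors]
    refine ⟨hq, ?_, hn⟩
    rw [hm]
    exact Dvd.intro_left (g * m') (by ring)
  obtain ⟨x, hxB, hx⟩ := hB q hqn
  apply hx
  have h1 : ((k : ℤ)) ∈ rotStab n x := by
    rw [mem_rotStab, hik]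
    exact hi x hxB
  have h2 : ((g : ℕ) : ℤ) ∈ rotStab n x := by
    have h3 := Nat.gcd_eq_gcd_ab k n
    rw [← hg] at h3
    rw [h3]
    refine (rotStab n x).add_mem ?_ ?_
    · rw [mul_comm, ← smul_eq_mul]
      exact (rotStab n x).zsmul_mem h1 _
    · rw [mul_comm, ← smul_eq_mul]
      exact (rotStab n x).zsmul_mem (n_mem_rotStab x) _
  have h4 : (((n / q : ℕ)) : ℤ) ∈ rotStab n x := by
    have h5 : n / q = m' * g := by
      rw [hm]
      rw [show g * (q * m') = q * (m' * g) by ring]
      exact Nat.mul_div_cancel_left _ hq.pos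
    rw [h5]
    push_cast
    rw [← smul_eq_mul]
    exact (rotStab n x).zsmul_mem h2 _
  rw [mem_rotStab, Int.cast_natCast] at h4
  exact h4

theorem refl_unique (hn : n ≠ 0) {B : Finset S} (hB : AllAct n B) (a b : ZMod n)
    (ha : ∀ x ∈ B, (sr a : DihedralGroup n) • x = x)
    (hb : ∀ x ∈ B, (sr b : DihedralGroup n) • x = x) : a = b := by
  have h := rot_trivial hn hB (b - a) (by
    intro x hx
    rw [← sr_sr_smul, hb x hx, ha x hx])
  exact (sub_eq_zero.1 h).symm

theorem exists_insert_base [FaithfulSMul (DihedralGroup n) S] [Nonempty S] [DecidableEq S]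
    (hn : n ≠ 0) {B : Finset S} (hB : AllAct n B) :
    ∃ y : S, IsBase (DihedralGroup n) (insert y B) := by
  by_cases h : ∃ a : ZMod n, ∀ x ∈ B, (sr a : DihedralGroup n) • x = x
  · obtain ⟨a, ha⟩ := h
    have h1 : (sr a : DihedralGroup n) ≠ 1 := by
      intro h
      rw [one_def] at h
      cases h
    have h2 : ∃ y : S, (sr a : DihedralGroup n) • y ≠ y := by
      by_contra hcon
      push Not at hcon
      apply h1
      apply FaithfulSMul.eq_of_smul_eq_smul (α := S)
      intro y
      rw [hcon y, one_smul]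
    obtain ⟨y, hy⟩ := h2
    refine ⟨y, ?_⟩
    intro g hg
    rcases g with i | b
    · have := rot_trivial hn hB i (fun x hx => hg x (Finset.mem_insert_of_mem hx))
      rw [this, one_def]
    · exfalso
      have := refl_unique hn hB a b ha (fun x hx => hg x (Finset.mem_insert_of_mem hx))
      subst this
      exact hy (hg y (Finset.mem_insert_self _ _))
  · push Not at h
    refine ⟨Classical.arbitrary S, ?_⟩
    intro g hg
    rcases g with i | b
    · have := rot_trivial hn hB i (fun x hx => hg x (Finset.mem_insert_of_mem hx))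
      rw [this, one_def]
    · exfalso
      obtain ⟨x, hx, hx'⟩ := h b
      exact hx' (hg x (Finset.mem_insert_of_mem hx))

theorem natCast_div_ne_zero (hn : n ≠ 0) {q : ℕ} (hq : q ∈ n.primeFactors) :
    ((n / q : ℕ) : ZMod n) ≠ 0 := by
  rw [Nat.mem_primeFactors] at hq
  intro h
  rw [ZMod.natCast_eq_zero_iff] at h
  have h1 : 0 < n / q := Nat.div_pos (Nat.le_of_dvd (Nat.pos_of_ne_zero hn) hq.2.1) hq.1.pos
  have h2 : n / q < n := Nat.div_lt_self (Nat.pos_of_ne_zero hn) hq.1.one_lt
  exact absurd (Nat.le_of_dvd h1 h) (by omega)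

theorem exists_active [FaithfulSMul (DihedralGroup n) S] (hn : n ≠ 0) {q : ℕ}
    (hq : q ∈ n.primeFactors) : ∃ x : S, Act n q x := by
  by_contra hcon
  push Not at hcon
  have h1 : (r ((n / q : ℕ) : ZMod n) : DihedralGroup n) = 1 := by
    apply FaithfulSMul.eq_of_smul_eq_smul (α := S)
    intro y
    have := hcon y
    unfold Act at this
    push Not at this
    rw [this, one_smul]
  rw [one_def] at h1
  have h2 := DihedralGroup.r.inj h1
  exact natCast_div_ne_zero hn hq h2

/-- There is a set of `≤ |T|` points containing an active point for each prime in `T`. -/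
theorem exists_cover [FaithfulSMul (DihedralGroup n) S] [DecidableEq S] (hn : n ≠ 0)
    (T : Finset ℕ) (hT : T ⊆ n.primeFactors) :
    ∃ B : Finset S, B.card ≤ T.card ∧ ∀ q ∈ T, ∃ x ∈ B, Act n q x := by
  classical
  have h : ∀ q : {q // q ∈ T}, ∃ x : S, Act n q.1 x := fun q => exists_active hn (hT q.2)
  choose f hf using h
  refine ⟨T.attach.image f, ?_, ?_⟩
  · exact le_trans Finset.card_image_le (by simp)
  · intro q hq
    exact ⟨f ⟨q, hq⟩, Finset.mem_image_of_mem f (Finset.mem_attach _ _), hf ⟨q, hq⟩⟩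

/-- Every faithful action of the dihedral group of order `2n` has a base with at most
`ω(n) + 1` elements. -/
theorem exists_base_le [FaithfulSMul (DihedralGroup n) S] [Nonempty S] (hn : n ≠ 0) :
    ∃ B : Finset S, B.card ≤ n.primeFactors.card + 1 ∧ IsBase (DihedralGroup n) B := by
  classical
  obtain ⟨B, hB, hB'⟩ := exists_cover (n := n) (S := S) hn n.primeFactors (Finset.Subset.refl _)
  obtain ⟨y, hy⟩ := exists_insert_base hn (B := B) hB'
  exact ⟨insert y B, le_trans (Finset.card_insert_le _ _) (by omega), hy⟩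

end act

end DihBase
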