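import Pool.Agent.V11265.Dih.Surj
import Pool.Agent.V11265.Dih.Upper

namespace DihBase

open DihedralGroup Vtx

theorem isBase_iff {G H V : Type*} [Group G] [Group H] [MulAction G V] [MulAction H V]
    (φ : G ≃* H) (hφ : ∀ (g : G) (v : V), φ g • v = g • v) (B : Finset V) :
    IsBase G B ↔ IsBase H B := by
  constructor
  · intro h g hg
    have : φ.symm g = 1 := h _ (fun x hx => by rw [← hφ]; simpa using hg x hx)
    have h2 := congrArg φ this
    simpa using h2
  · intro h g hg
    have : φ g = 1 := h _ (fun x hx => by rw [hφ]; exact hg x hx)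
    simpa using this

theorem isBaseSize_iff {G H V : Type*} [Group G] [Group H] [MulAction G V] [MulAction H V]
    (φ : G ≃* H) (hφ : ∀ (g : G) (v : V), φ g • v = g • v) (b : ℕ) :
    IsBaseSize G V b ↔ IsBaseSize H V b := by
  unfold IsBaseSize
  have : {k : ℕ | ∃ B : Finset V, B.card = k ∧ IsBase G B} =
      {k : ℕ | ∃ B : Finset V, B.card = k ∧ IsBase H B} := by
    ext k
    simp only [Set.mem_ofPred_eq]
    constructor
    · rintro ⟨B, h1, h2⟩; exact ⟨B, h1, (isBase_iff φ hφ B).1 h2⟩
    · rintro ⟨B, h1, h2⟩; exact ⟨B, h1, (isBase_iff φ hφ B).2 h2⟩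
  rw [this]

variable {n : ℕ} {P : Par n}

instance : FaithfulSMul (DihedralGroup n) (Vtx P) where
  eq_of_smul_eq_smul := by
    intro g h hgh
    apply Phi_injective P
    ext v
    exact hgh v

theorem mem_det (P : Par n) (hc2 : ∀ i, 2 ≤ P.c i) {b : ℕ}
    (h : IsBaseSize (DihedralGroup n) (Vtx P) b) : b ∈ DeterminingSet (DihedralGroup n) :=
  ⟨Vtx P, inferInstance, Gr P, ⟨PhiEquiv P hc2⟩,
    (isBaseSize_iff (PhiEquiv P hc2) (fun _ _ => rfl) b).1 h⟩

theorem r_X (K : ℤ) (i : P.ι) (x : ZMod (2 * P.d i)) :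
    (r (K : ZMod n) : DihedralGroup n) • (X i x : Vtx P) = X i x ↔ (P.d i : ℤ) ∣ K := by
  rw [smul_def]
  simp only [actV, dbl_intCast, X.injEq, heq_eq_eq, true_and, add_eq_left]
  rw [ZMod.intCast_zmod_eq_zero_iff_dvd]
  push_cast
  constructor
  · exact Int.dvd_of_mul_dvd_mul_left (by norm_num)
  · exact mul_dvd_mul_left 2

theorem r_F (K : ℤ) (i : P.ι) (y : ZMod (2 * P.c i)) :
    (r (K : ZMod n) : DihedralGroup n) • (F i y : Vtx P) = F i y ↔ (P.c i : ℤ) ∣ K := by
  rw [smul_def]
  simp only [actV, dbl_intCast, F.injEq, heq_eq_eq, true_and, add_eq_left]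
  rw [ZMod.intCast_zmod_eq_zero_iff_dvd]
  push_cast
  constructor
  · exact Int.dvd_of_mul_dvd_mul_left (by norm_num)
  · exact mul_dvd_mul_left 2

theorem r_Y (K : ℤ) (j : ZMod P.e) :
    (r (K : ZMod n) : DihedralGroup n) • (Y j : Vtx P) = Y j ↔ (P.e : ℤ) ∣ K := by
  rw [smul_def]
  simp only [actV, map_intCast, Y.injEq, add_eq_left]
  rw [ZMod.intCast_zmod_eq_zero_iff_dvd]

theorem sr_X (K : ℤ) (i : P.ι) (z : ℤ) :
    (sr (K : ZMod n) : DihedralGroup n) • (X i z : Vtx P) = X i z ↔ (P.d i : ℤ) ∣ K + z := by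
  rw [smul_def]
  simp only [actV, dbl_intCast, X.injEq, heq_eq_eq, true_and]
  rw [← Int.cast_neg, ← Int.cast_sub, cast_eq_iff_dvd, ← dvd_neg]
  rw [show -(-(2 * K) - z - z) = 2 * (K + z) by ring]
  push_cast
  constructor
  · exact Int.dvd_of_mul_dvd_mul_left (by norm_num)
  · exact mul_dvd_mul_left 2

theorem sr_F (K : ℤ) (i : P.ι) (y : ZMod (2 * P.c i)) :
    (sr (K : ZMod n) : DihedralGroup n) • (F i y : Vtx P) ≠ F i y := by
  obtain ⟨z, rfl⟩ := ZMod.intCast_surjective y
  rw [smul_def]
  simp only [actV, dbl_intCast, ne_eq, F.injEq, heq_eq_eq, true_and]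
  intro h
  have h1 : ((-(2 * K) - 1 - z : ℤ) : ZMod (2 * P.c i)) = (z : ℤ) := by
    rw [← h]; push_cast; ring
  have := cast_congr2 h1
  omega

theorem sr_Y (K : ℤ) (hK : (P.e : ℤ) ∣ K) (j : ZMod P.e) :
    (sr (K : ZMod n) : DihedralGroup n) • (Y j : Vtx P) = Y j := by
  rw [smul_def]
  simp only [actV, map_intCast, Y.injEq]
  rw [(ZMod.intCast_zmod_eq_zero_iff_dvd K P.e).2 hK, neg_zero, zero_sub]
  exact small_neg P.he j

theorem r_ne_one (i : P.ι) {K : ℤ} (h : ¬ (P.d i : ℤ) ∣ K) :
    (r (K : ZMod n) : DihedralGroup n) ≠ 1 := by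
  intro h1
  apply h
  rw [← r_X (P := P) K i 0, h1, one_smul]

/-- a rotation concentrated at the part `i` -/
theorem rot_at (P : Par n) (i : P.ι) (a : ℤ) : ∃ K : ℤ, (∀ j, j ≠ i → (P.d j : ℤ) ∣ K) ∧
    (P.e : ℤ) ∣ K ∧ (P.d i : ℤ) ∣ K - a := by
  classical
  obtain ⟨k, hk1, hk2⟩ := crt_par P (fun j => if j = i then a else 0) 0
  refine ⟨k, ?_, by simpa using hk2, by simpa using hk1 i⟩
  intro j hj
  have := hk1 j
  simpa [hj] using this

/-- base size when all points of `F` are regular -/
theorem baseA (P : Par n) (hcd : ∀ i, P.c i = P.d i) (he : P.e = 1) :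
    IsBaseSize (DihedralGroup n) (Vtx P) (Nat.card P.ι) := by
  classical
  have : Fintype P.ι := Fintype.ofFinite _
  constructor
  · refine ⟨Finset.univ.image (fun i : P.ι => (F i 0 : Vtx P)), ?_, ?_⟩
    · rw [Finset.card_image_of_injective, Finset.card_univ, Nat.card_eq_fintype_card]
      intro a b hab
      simp only [F.injEq] at hab
      exact hab.1
    · intro g hg
      rcases g with k | k
      · obtain ⟨K, rfl⟩ := ZMod.intCast_surjective k
        have h1 : (n : ℤ) ∣ K := by
          apply P.hlcm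
          · intro i
            have := hg (F i 0) (Finset.mem_image_of_mem _ (Finset.mem_univ i))
            rw [r_F, hcd] at this
            exact this
          · rw [he]; simp
        rw [(ZMod.intCast_zmod_eq_zero_iff_dvd K n).2 h1, one_def]
      · obtain ⟨K, rfl⟩ := ZMod.intCast_surjective k
        have i := Classical.arbitrary P.ι
        exact absurd (hg (F i 0) (Finset.mem_image_of_mem _ (Finset.mem_univ i))) (sr_F K i 0)
  · rintro k ⟨B, rfl, hB⟩
    have h1 : ∀ i : P.ι, ∃ v ∈ B, (∃ y, v = F i y) ∨ (∃ x, v = X i x) := by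
      intro i
      by_contra hcon
      push Not at hcon
      obtain ⟨K, hK1, hK2, hK3⟩ := rot_at P i 1
      have hKi : ¬ (P.d i : ℤ) ∣ K := by
        intro h
        have h2 := dvd_sub h hK3
        rw [sub_sub_cancel] at h2
        have := Int.le_of_dvd one_pos h2
        have := P.hd2 i
        omega
      apply r_ne_one i hKi
      apply hB
      intro v hv
      have hcon' := hcon v hv
      cases v with
      | m1 => rfl
      | l1 => rfl
      | m2 => rfl
      | k2 => rfl
      | l2 => rfl
      | T s => rfl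
      | F j y =>
        by_cases hj : j = i
        · subst hj; exact absurd rfl (hcon'.1 y)
        · rw [r_F, hcd]; exact hK1 j hj
      | X j x =>
        by_cases hj : j = i
        · subst hj; exact absurd rfl (hcon'.2 x)
        · rw [r_X]; exact hK1 j hj
      | Y j => rw [r_Y]; exact hK2
    choose f hf1 hf2 using h1
    rw [Nat.card_eq_fintype_card, ← Finset.card_univ]
    apply Finset.card_le_card_of_injOn f (fun i _ => hf1 i)
    intro a _ b _ hab
    rcases hf2 a with ⟨y, hy⟩ | ⟨y, hy⟩ <;> rcases hf2 b with ⟨w, hw⟩ | ⟨w, hw⟩ <;>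
      rw [hy, hw] at hab <;> simp at hab <;> exact hab.1

/-- lower bound for the base size when `c i` is a proper divisor of `d i` -/
theorem baseB (P : Par n) (hcd : ∀ i, P.c i < P.d i) (B : Finset (Vtx P))
    (hB : IsBase (DihedralGroup n) B) : Nat.card P.ι + (P.e - 1) + 1 ≤ B.card := by
  classical
  have : Fintype P.ι := Fintype.ofFinite _
  by_contra hlt
  push Not at hlt
  have hci : ∀ i, (0 : ℤ) < P.c i := fun i => by have := P.hc1 i; omega
  have h1 : ∀ i : P.ι, ∃ z : ℤ, (X i z : Vtx P) ∈ B := by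
    intro i
    by_contra hcon
    push Not at hcon
    obtain ⟨K, hK1, hK2, hK3⟩ := rot_at P i (P.c i)
    have hKi : ¬ (P.d i : ℤ) ∣ K := by
      intro h
      have h2 := dvd_sub h hK3
      rw [sub_sub_cancel] at h2
      have := Int.le_of_dvd (hci i) h2
      have := hcd i
      omega
    have hKc : (P.c i : ℤ) ∣ K := by
      have h2 : (P.c i : ℤ) ∣ K - P.c i := dvd_trans (by exact_mod_cast P.hcd i) hK3
      have := dvd_add h2 (dvd_refl (P.c i : ℤ))
      rwa [sub_add_cancel] at this
    apply r_ne_one i hKi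
    apply hB
    intro v hv
    cases v with
    | m1 => rfl
    | l1 => rfl
    | m2 => rfl
    | k2 => rfl
    | l2 => rfl
    | T s => rfl
    | F j y =>
      rw [r_F]
      by_cases hj : j = i
      · subst hj; exact hKc
      · exact dvd_trans (by exact_mod_cast P.hcd j) (hK1 j hj)
    | X j x =>
      by_cases hj : j = i
      · subst hj
        obtain ⟨z, rfl⟩ := ZMod.intCast_surjective x
        exact absurd hv (hcon z)
      · rw [r_X]; exact hK1 j hj
    | Y j => rw [r_Y]; exact hK2
  choose z hz using h1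
  set B1 : Finset (Vtx P) := Finset.univ.image (fun i : P.ι => (X i (z i) : Vtx P)) with hB1
  have hB1c : B1.card = Nat.card P.ι := by
    rw [hB1, Finset.card_image_of_injective, Finset.card_univ, Nat.card_eq_fintype_card]
    intro a b hab
    simp only [X.injEq] at hab
    exact hab.1
  have hB1B : B1 ⊆ B := by
    intro v hv
    rw [hB1, Finset.mem_image] at hv
    obtain ⟨i, -, rfl⟩ := hv
    exact hz i
  have h2 : ∃ j : ZMod P.e, ∀ v ∈ B, v ∈ B1 ∨ v = Y j := by
    rcases P.he with he | he
    · refine ⟨0, ?_⟩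
      have : B1 = B := Finset.eq_of_subset_of_card_le hB1B (by rw [hB1c]; omega)
      intro v hv
      left; rw [this]; exact hv
    · -- there is a `Y` point
      have hY : ∃ j, (Y j : Vtx P) ∈ B := by
        by_contra hcon
        push Not at hcon
        obtain ⟨K, hK1, hK2⟩ := crt_par P (fun _ => 0) 1
        have hKe : ¬ (P.e : ℤ) ∣ K := by
          intro h
          have h2 := dvd_sub h hK2
          rw [sub_sub_cancel, he] at h2
          norm_num at h2
        have hne : (r (K : ZMod n) : DihedralGroup n) ≠ 1 := by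
          intro h1
          apply hKe
          rw [← r_Y (P := P) K 0, h1, one_smul]
        apply hne
        apply hB
        intro v hv
        cases v with
        | m1 => rfl
        | l1 => rfl
        | m2 => rfl
        | k2 => rfl
        | l2 => rfl
        | T s => rfl
        | F j y => rw [r_F]; exact dvd_trans (Int.natCast_dvd_natCast.2 (P.hcd j)) (by simpa using hK1 j)
        | X j x => rw [r_X]; simpa using hK1 j
        | Y j => exact absurd hv (hcon j)
      obtain ⟨j, hj⟩ := hY
      refine ⟨j, ?_⟩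
      have hnot : (Y j : Vtx P) ∉ B1 := by
        rw [hB1, Finset.mem_image]
        rintro ⟨i, -, h⟩
        simp at h
      have hsub : insert (Y j) B1 ⊆ B := Finset.insert_subset hj hB1B
      have : insert (Y j) B1 = B := Finset.eq_of_subset_of_card_le hsub (by
        rw [Finset.card_insert_of_notMem hnot, hB1c]; omega)
      intro v hv
      rw [← this, Finset.mem_insert] at hv
      exact hv.symm
  obtain ⟨j, hj⟩ := h2
  obtain ⟨K, hK1, hK2⟩ := crt_par P (fun i => - z i) 0
  have hfix : ∀ v ∈ B, (sr (K : ZMod n) : DihedralGroup n) • v = v := by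
    intro v hv
    rcases hj v hv with h | h
    · rw [hB1, Finset.mem_image] at h
      obtain ⟨i, -, rfl⟩ := h
      rw [sr_X]
      simpa using hK1 i
    · rw [h]
      exact sr_Y K (by simpa using hK2) j
  have := hB _ hfix
  rw [one_def] at this
  cases this

end DihBase
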