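import Pool.Agent.V11265.Dih.Base

namespace DihBase

open DihedralGroup

/-- Parameters for a cycle plus isolated points. -/
structure Par2 (n : ℕ) where
  d : ℕ
  e : ℕ
  hdn : d ∣ n
  hen : e ∣ n
  hed : Nat.Coprime e d
  hlcm : ∀ k : ℤ, (d : ℤ) ∣ k → (e : ℤ) ∣ k → (n : ℤ) ∣ k
  hd3 : 3 ≤ d
  he : e = 1 ∨ e = 2

variable {n : ℕ}

/-- vertices -/
inductive W (P : Par2 n) : Type
  | A (x : ZMod P.d)
  | B (j : ZMod P.e)

open W

/-- the graph -/
def Cy (P : Par2 n) : SimpleGraph (W P) := SimpleGraph.fromRel (fun v w => match v, w with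
  | A x, A y => y = x + 1
  | _, _ => False)

variable (P : Par2 n)

instance : Finite (W P) := by
  have : NeZero P.d := ⟨by have := P.hd3; omega⟩
  have : NeZero P.e := ⟨by rcases P.he with h | h <;> omega⟩
  let f : W P → ZMod P.d ⊕ ZMod P.e := fun v => match v with
    | A x => Sum.inl x
    | B j => Sum.inr j
  apply Finite.of_injective f
  intro v w h
  cases v <;> cases w <;> simp_all [f]

theorem one_ne_zeroW : (1 : ZMod P.d) ≠ 0 := by
  intro h
  have h1 : ((1 : ℤ) : ZMod P.d) = 0 := by push_cast; exact h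
  rw [ZMod.intCast_zmod_eq_zero_iff_dvd] at h1
  have := Int.le_of_dvd one_pos h1
  have := P.hd3
  omega

theorem two_ne_zeroW : (2 : ZMod P.d) ≠ 0 := by
  intro h
  have h1 : ((2 : ℤ) : ZMod P.d) = 0 := by push_cast; exact h
  rw [ZMod.intCast_zmod_eq_zero_iff_dvd] at h1
  have := Int.le_of_dvd two_pos h1
  have := P.hd3
  omega

theorem Cy_AA (x y : ZMod P.d) : (Cy P).Adj (A x) (A y) ↔ y = x + 1 ∨ y = x - 1 := by
  unfold Cy
  rw [SimpleGraph.fromRel_adj]
  constructor
  · rintro ⟨-, h | h⟩
    · exact Or.inl h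
    · right; rw [h]; ring
  · rintro (h | h)
    · refine ⟨?_, Or.inl h⟩
      rw [h]; intro h'
      simp only [A.injEq, left_eq_add] at h'
      exact one_ne_zeroW P h'
    · refine ⟨?_, Or.inr (by rw [h]; ring)⟩
      rw [h]; intro h'
      simp only [A.injEq] at h'
      apply one_ne_zeroW P
      linear_combination h'

theorem Cy_B (j : ZMod P.e) (v : W P) : ¬ (Cy P).Adj (B j) v := by
  unfold Cy
  rw [SimpleGraph.fromRel_adj]
  cases v <;> simp

/-- action -/
def actW : DihedralGroup n → W P → W P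
  | r k, A x => A (x + ZMod.castHom P.hdn (ZMod P.d) k)
  | sr k, A x => A (-(ZMod.castHom P.hdn (ZMod P.d) k) - x)
  | r k, B j => B (j + ZMod.castHom P.hen (ZMod P.e) k)
  | sr k, B j => B (-(ZMod.castHom P.hen (ZMod P.e) k) - j)

instance : MulAction (DihedralGroup n) (W P) where
  smul := actW P
  one_smul := by
    intro v
    change actW P 1 v = v
    rw [one_def]
    cases v <;> simp [actW]
  mul_smul := by
    intro g h v
    change actW P (g * h) v = actW P g (actW P h v)
    rcases g with k | k <;> rcases h with l | l <;> cases v <;>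
      simp only [r_mul_r, r_mul_sr, sr_mul_r, sr_mul_sr, actW, map_add, map_sub] <;>
      (congr 1; ring)

theorem smul_defW (g : DihedralGroup n) (v : W P) : g • v = actW P g v := rfl

theorem adj_smul_ofW (g : DihedralGroup n) {v w : W P} (h : (Cy P).Adj v w) :
    (Cy P).Adj (g • v) (g • w) := by
  rw [smul_defW, smul_defW]
  cases v with
  | B j => exact absurd h (Cy_B P j _)
  | A x =>
    cases w with
    | B j => exact absurd h.symm (Cy_B P j _)
    | A y =>
      rw [Cy_AA] at h
      rcases g with k | k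
      · simp only [actW]
        rw [Cy_AA]
        rcases h with h | h
        · left; rw [h]; ring
        · right; rw [h]; ring
      · simp only [actW]
        rw [Cy_AA]
        rcases h with h | h
        · right; rw [h]; ring
        · left; rw [h]; ring

theorem adj_smulW (g : DihedralGroup n) (v w : W P) :
    (Cy P).Adj (g • v) (g • w) ↔ (Cy P).Adj v w := by
  refine ⟨fun h => ?_, adj_smul_ofW P g⟩
  have := adj_smul_ofW P g⁻¹ h
  simpa using this

/-- The homomorphism from the dihedral group to the automorphism group. -/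
def Psi : DihedralGroup n →* (Cy P ≃g Cy P) where
  toFun g := { toEquiv := MulAction.toPerm g, map_rel_iff' := fun {v w} => adj_smulW P g v w }
  map_one' := by
    ext v
    exact one_smul (DihedralGroup n) v
  map_mul' g h := by
    ext v
    exact mul_smul g h v

theorem Psi_apply (g : DihedralGroup n) (v : W P) : Psi P g v = g • v := rfl

theorem r_A (K : ℤ) (x : ZMod P.d) :
    (r (K : ZMod n) : DihedralGroup n) • (A x : W P) = A x ↔ (P.d : ℤ) ∣ K := by
  rw [smul_defW]
  simp only [actW, map_intCast, A.injEq, add_eq_left]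
  rw [ZMod.intCast_zmod_eq_zero_iff_dvd]

theorem r_B (K : ℤ) (j : ZMod P.e) :
    (r (K : ZMod n) : DihedralGroup n) • (B j : W P) = B j ↔ (P.e : ℤ) ∣ K := by
  rw [smul_defW]
  simp only [actW, map_intCast, B.injEq, add_eq_left]
  rw [ZMod.intCast_zmod_eq_zero_iff_dvd]

theorem sr_A (K : ℤ) (z : ℤ) :
    (sr (K : ZMod n) : DihedralGroup n) • (A z : W P) = A z ↔ (P.d : ℤ) ∣ K + 2 * z := by
  rw [smul_defW]
  simp only [actW, map_intCast, A.injEq]
  rw [← Int.cast_neg, ← Int.cast_sub, cast_eq_iff_dvd, ← dvd_neg]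
  rw [show -(-K - z - z) = K + 2 * z by ring]

theorem sr_B (K : ℤ) (hK : (P.e : ℤ) ∣ K) (j : ZMod P.e) :
    (sr (K : ZMod n) : DihedralGroup n) • (B j : W P) = B j := by
  rw [smul_defW]
  simp only [actW, map_intCast, B.injEq]
  rw [(ZMod.intCast_zmod_eq_zero_iff_dvd K P.e).2 hK, neg_zero, zero_sub]
  exact small_neg P.he j

theorem Psi_injective : Function.Injective (Psi P) := by
  rw [injective_iff_map_eq_one]
  intro g hg
  have h1 : ∀ v : W P, g • v = v := fun v => by
    rw [← Psi_apply, hg]; rfl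
  rcases g with k | k
  · obtain ⟨K, rfl⟩ := ZMod.intCast_surjective k
    have h2 : (n : ℤ) ∣ K := P.hlcm K ((r_A P K 0).1 (h1 _)) ((r_B P K 0).1 (h1 _))
    rw [(ZMod.intCast_zmod_eq_zero_iff_dvd K n).2 h2, one_def]
  · exfalso
    obtain ⟨K, rfl⟩ := ZMod.intCast_surjective k
    have h2 := (sr_A P K 0).1 (h1 _)
    have h3 := (sr_A P K 1).1 (h1 _)
    have h4 := dvd_sub h3 h2
    rw [show K + 2 * 1 - (K + 2 * 0) = 2 by ring] at h4
    have := Int.le_of_dvd two_pos h4
    have := P.hd3
    omega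

theorem crt_par2 (a h : ℤ) : ∃ k : ℤ, (P.d : ℤ) ∣ k - a ∧ (P.e : ℤ) ∣ k - h := by
  obtain ⟨k, hk⟩ := crt_int (κ := Bool) (fun o => bif o then P.d else P.e) (by
    intro i j hij
    cases i <;> cases j
    · exact absurd rfl hij
    · exact P.hed
    · exact P.hed.symm
    · exact absurd rfl hij) (fun o => bif o then a else h)
  exact ⟨k, hk true, hk false⟩

theorem Psi_surjective : Function.Surjective (Psi P) := by
  intro φ
  have hφ : ∀ v w, (Cy P).Adj (φ v) (φ w) ↔ (Cy P).Adj v w := fun v w => φ.map_rel_iff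
  have hA : ∀ z : ℤ, ∃ w : ℤ, φ (A z) = A w := by
    intro z
    have h1 := (hφ (A z) (A ((z : ZMod P.d) + 1))).2 ((Cy_AA P _ _).2 (Or.inl rfl))
    cases h : φ (A z) with
    | A x =>
      obtain ⟨w, rfl⟩ := ZMod.intCast_surjective x
      exact ⟨w, rfl⟩
    | B j => rw [h] at h1; exact absurd h1 (Cy_B P j _)
  have hB : ∀ j : ZMod P.e, ∃ j', φ (B j) = B j' := by
    intro j
    cases h : φ (B j) with
    | A x =>
      exfalso
      have h1 : (Cy P).Adj (φ (B j)) (φ (φ.symm (A (x + 1)))) := by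
        rw [h]; simp only [RelIso.apply_symm_apply]
        exact (Cy_AA P _ _).2 (Or.inl rfl)
      rw [hφ] at h1
      exact Cy_B P j _ h1
    | B j' => exact ⟨j', rfl⟩
  -- sign
  have hstep : ∀ z w : ℤ, φ (A z) = A w →
      (φ (A ((z + 1 : ℤ) : ZMod P.d)) = A ((w + 1 : ℤ) : ZMod P.d) ∨
       φ (A ((z + 1 : ℤ) : ZMod P.d)) = A ((w - 1 : ℤ) : ZMod P.d)) ∧
      (φ (A ((z - 1 : ℤ) : ZMod P.d)) = A ((w + 1 : ℤ) : ZMod P.d) ∨
       φ (A ((z - 1 : ℤ) : ZMod P.d)) = A ((w - 1 : ℤ) : ZMod P.d)) := by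
    intro z w hw
    constructor
    · obtain ⟨w', hw'⟩ := hA (z + 1)
      have h1 := (hφ (A z) (A ((z + 1 : ℤ) : ZMod P.d))).2 ((Cy_AA P _ _).2 (Or.inl (by push_cast; ring)))
      rw [hw, hw', Cy_AA] at h1
      rw [hw']
      rcases h1 with h1 | h1
      · left; rw [h1]; push_cast; rfl
      · right; rw [h1]; push_cast; rfl
    · obtain ⟨w', hw'⟩ := hA (z - 1)
      have h1 := (hφ (A z) (A ((z - 1 : ℤ) : ZMod P.d))).2 ((Cy_AA P _ _).2 (Or.inr (by push_cast; ring)))
      rw [hw, hw', Cy_AA] at h1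
      rw [hw']
      rcases h1 with h1 | h1
      · left; rw [h1]; push_cast; rfl
      · right; rw [h1]; push_cast; rfl
  have hne2 : ∀ z : ℤ, φ (A ((z + 1 : ℤ) : ZMod P.d)) ≠ φ (A ((z - 1 : ℤ) : ZMod P.d)) := by
    intro z h
    have h1 := φ.injective h
    simp only [A.injEq] at h1
    apply two_ne_zeroW P
    push_cast at h1
    linear_combination h1
  obtain ⟨v, hv⟩ := hA 0
  have hs : ∃ s : ℤ, (s = 1 ∨ s = -1) ∧ φ (A ((0 + 1 : ℤ) : ZMod P.d)) = A ((v + s : ℤ) : ZMod P.d) := by
    rcases (hstep 0 v hv).1 with h | h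
    · exact ⟨1, Or.inl rfl, h⟩
    · exact ⟨-1, Or.inr rfl, h⟩
  obtain ⟨s, hs, hs1⟩ := hs
  have hall : ∀ z : ℤ, φ (A z) = A ((v + s * z : ℤ) : ZMod P.d) ∧
      φ (A ((z + 1 : ℤ) : ZMod P.d)) = A ((v + s * (z + 1) : ℤ) : ZMod P.d) := by
    intro z
    induction z using Int.induction_on with
    | zero => exact ⟨by rw [hv]; simp, by rw [hs1]; simp⟩
    | succ m ih =>
      refine ⟨ih.2, ?_⟩
      have h1 := (hstep _ _ ih.2).1
      have h2 := hne2 ((m : ℤ) + 1)
      rw [show (m : ℤ) + 1 - 1 = m by ring, ih.1] at h2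
      rcases hs with rfl | rfl
      · rcases h1 with h1 | h1
        · rw [h1]; congr 2; ring
        · exfalso; apply h2; rw [h1]; congr 2; ring
      · rcases h1 with h1 | h1
        · exfalso; apply h2; rw [h1]; congr 2; ring
        · rw [h1]; congr 2; ring
    | pred m ih =>
      have h1 := (hstep _ _ ih.1).2
      have h2 := hne2 (-(m : ℤ))
      rw [ih.2] at h2
      rw [show -(m : ℤ) - 1 + 1 = -(m : ℤ) by ring]
      refine ⟨?_, ih.1⟩
      rcases hs with rfl | rfl
      · rcases h1 with h1 | h1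
        · exfalso; apply h2; rw [h1]; congr 2; ring
        · rw [h1]; congr 2; ring
      · rcases h1 with h1 | h1
        · rw [h1]; congr 2; ring
        · exfalso; apply h2; rw [h1]; congr 2; ring
  choose g hg using hB
  have hginj : Function.Injective g := by
    intro a b hab
    have := φ.injective ((hg a).trans ((congrArg B hab).trans (hg b).symm))
    simpa using this
  obtain ⟨h, hh⟩ := small_mod P.he g hginj
  have hneg := fun x : ZMod P.e => small_neg P.he x
  obtain ⟨k, hk1, hk2⟩ := crt_par2 P (s * v) h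
  have hkh : ((k : ℤ) : ZMod P.e) = h := by
    rw [cast_eq_iff_dvd]; exact hk2
  have hkv : ((k : ℤ) : ZMod P.d) = ((s * v : ℤ) : ZMod P.d) := by
    rw [cast_eq_iff_dvd]; exact hk1
  rcases hs with rfl | rfl
  · refine ⟨r k, ?_⟩
    ext w
    rw [Psi_apply, smul_defW]
    cases w with
    | A x =>
      obtain ⟨z, rfl⟩ := ZMod.intCast_surjective x
      rw [(hall z).1]
      simp only [actW, map_intCast, hkv]
      congr 1
      push_cast; ring
    | B j =>
      rw [hg, hh]
      simp only [actW, map_intCast, hkh]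
      rw [add_comm]
  · refine ⟨sr k, ?_⟩
    ext w
    rw [Psi_apply, smul_defW]
    cases w with
    | A x =>
      obtain ⟨z, rfl⟩ := ZMod.intCast_surjective x
      rw [(hall z).1]
      simp only [actW, map_intCast, hkv]
      congr 1
      push_cast; ring
    | B j =>
      rw [hg, hh]
      simp only [actW, map_intCast, hkh]
      rw [hneg, sub_eq_add_neg, hneg]

/-- The dihedral group is isomorphic to the automorphism group of `Cy P`. -/
noncomputable def PsiEquiv : DihedralGroup n ≃* (Cy P ≃g Cy P) :=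
  MulEquiv.ofBijective (Psi P) ⟨Psi_injective P, Psi_surjective P⟩

instance : FaithfulSMul (DihedralGroup n) (W P) where
  eq_of_smul_eq_smul := by
    intro g h hgh
    apply Psi_injective P
    ext v
    exact hgh v

theorem mem_det2 {b : ℕ} (h : IsBaseSize (DihedralGroup n) (W P) b) :
    b ∈ DeterminingSet (DihedralGroup n) :=
  ⟨W P, inferInstance, Cy P, ⟨PsiEquiv P⟩,
    (isBaseSize_iff (PsiEquiv P) (fun _ _ => rfl) b).1 h⟩

theorem baseC (S : Finset (W P)) (hS : IsBase (DihedralGroup n) S) : P.e + 1 ≤ S.card := by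
  classical
  -- at least two points of the cycle
  set S1 := S.filter (fun v => ∃ x, v = A x) with hS1
  have h1 : 2 ≤ S1.card := by
    by_contra hlt
    push Not at hlt
    have h2 : S1.card ≤ 1 := by omega
    rw [Finset.card_le_one] at h2
    have h3 : ∃ z : ℤ, ∀ x, A x ∈ S → (A x : W P) = A z := by
      by_cases hne : S1.Nonempty
      · obtain ⟨v, hv⟩ := hne
        have hv' := hv
        rw [hS1, Finset.mem_filter] at hv'
        obtain ⟨x, rfl⟩ := hv'.2
        obtain ⟨z, rfl⟩ := ZMod.intCast_surjective x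
        refine ⟨z, ?_⟩
        intro x hx
        exact h2 _ (by rw [hS1, Finset.mem_filter]; exact ⟨hx, x, rfl⟩) _ hv
      · refine ⟨0, ?_⟩
        intro x hx
        exact absurd ⟨_, by rw [hS1, Finset.mem_filter]; exact ⟨hx, x, rfl⟩⟩ hne
    obtain ⟨z, hz⟩ := h3
    obtain ⟨K, hK1, hK2⟩ := crt_par2 P (- (2 * z)) 0
    have hfix : ∀ v ∈ S, (sr (K : ZMod n) : DihedralGroup n) • v = v := by
      intro v hv
      cases v with
      | A x => rw [hz x hv, sr_A]; simpa using hK1
      | B j => exact sr_B P K (by simpa using hK2) j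
    have := hS _ hfix
    rw [one_def] at this
    cases this
  rcases P.he with he | he
  · rw [he]
    exact le_trans h1 (Finset.card_filter_le _ _)
  · rw [he]
    have hY : ∃ j, (B j : W P) ∈ S := by
      by_contra hcon
      push Not at hcon
      obtain ⟨K, hK1, hK2⟩ := crt_par2 P 0 1
      have hKe : ¬ (P.e : ℤ) ∣ K := by
        intro h
        have h2 := dvd_sub h hK2
        rw [sub_sub_cancel, he] at h2
        norm_num at h2
      have hne : (r (K : ZMod n) : DihedralGroup n) ≠ 1 := by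
        intro h1
        apply hKe
        rw [← r_B P K 0, h1, one_smul]
      apply hne
      apply hS
      intro v hv
      cases v with
      | A x => rw [r_A]; simpa using hK1
      | B j => exact absurd hv (hcon j)
    obtain ⟨j, hj⟩ := hY
    have hlt : S1.card < S.card := by
      apply Finset.card_lt_card
      rw [Finset.ssubset_iff_of_subset (Finset.filter_subset _ _)]
      refine ⟨B j, hj, ?_⟩
      rw [Finset.mem_filter]
      rintro ⟨-, x, hx⟩
      simp at hx
    omega

end DihBase
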