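import Mathlib

namespace DihBase

/-- A finite set `B` is a base of the action of `G` on `S`: only the identity fixes `B` pointwise. -/
def IsBase (G : Type*) {S : Type*} [Group G] [MulAction G S] (B : Finset S) : Prop :=
  ∀ g : G, (∀ x ∈ B, g • x = x) → g = 1

/-- `b` is the base size of the action of `G` on `S`: the least cardinality of a base. -/
def IsBaseSize (G S : Type*) [Group G] [MulAction G S] (b : ℕ) : Prop :=
  IsLeast {k : ℕ | ∃ B : Finset S, B.card = k ∧ IsBase G B} b

/-- The base size set of `G`: all base sizes of faithful actions of `G` on finite sets. -/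
def BaseSizeSet (G : Type) [Group G] : Set ℕ :=
  {b | ∃ (S : Type) (_ : Finite S) (_ : MulAction G S), FaithfulSMul G S ∧ IsBaseSize G S b}

/-- The determining set of `G`: all base sizes of the actions of `Aut(Γ) ≅ G` on the vertex
set of a finite simple graph `Γ`. -/
def DeterminingSet (G : Type) [Group G] : Set ℕ :=
  {b | ∃ (V : Type) (_ : Finite V) (Γ : SimpleGraph V),
    Nonempty (G ≃* (Γ ≃g Γ)) ∧ IsBaseSize (Γ ≃g Γ) V b}

open DihedralGroup

section basic

variable {n : ℕ} {S : Type*} [MulAction (DihedralGroup n) S]

theorem r_r_smul (i j : ZMod n) (x : S) :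
    (r i : DihedralGroup n) • (r j : DihedralGroup n) • x = (r (i + j) : DihedralGroup n) • x := by
  rw [smul_smul, r_mul_r]

theorem r_sr_smul (i j : ZMod n) (x : S) :
    (r i : DihedralGroup n) • (sr j : DihedralGroup n) • x = (sr (j - i) : DihedralGroup n) • x := by
  rw [smul_smul, r_mul_sr]

theorem sr_r_smul (i j : ZMod n) (x : S) :
    (sr i : DihedralGroup n) • (r j : DihedralGroup n) • x = (sr (i + j) : DihedralGroup n) • x := by
  rw [smul_smul, sr_mul_r]

theorem sr_sr_smul (i j : ZMod n) (x : S) :
    (sr i : DihedralGroup n) • (sr j : DihedralGroup n) • x = (r (j - i) : DihedralGroup n) • x := by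
  rw [smul_smul, sr_mul_sr]

theorem r_zero_smul (x : S) : (r 0 : DihedralGroup n) • x = x := by
  rw [← one_def, one_smul]

/-- `x` is `q`-active: it is moved by the rotation of order `q`. -/
def Act (n q : ℕ) {S : Type*} [MulAction (DihedralGroup n) S] (x : S) : Prop :=
  (r ((n / q : ℕ) : ZMod n) : DihedralGroup n) • x ≠ x

/-- the set of integers `k` such that the rotation `r k` fixes `x`, as an additive subgroup -/
def rotStab (n : ℕ) {S : Type*} [MulAction (DihedralGroup n) S] (x : S) : AddSubgroup ℤ where
  carrier := {k : ℤ | (r (k : ZMod n) : DihedralGroup n) • x = x}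
  zero_mem' := by simp [r_zero_smul]
  add_mem' := by
    intro a b ha hb
    simp only [Set.mem_ofPred_eq] at *
    push_cast
    rw [← r_r_smul, hb, ha]
  neg_mem' := by
    intro a ha
    simp only [Set.mem_ofPred_eq] at *
    have h := congrArg (fun z => (r (-(a : ZMod n)) : DihedralGroup n) • z) ha
    simp only [r_r_smul] at h
    simp only [neg_add_cancel, r_zero_smul] at h
    push_cast
    exact h.symm

theorem mem_rotStab {x : S} {k : ℤ} :
    k ∈ rotStab n x ↔ (r (k : ZMod n) : DihedralGroup n) • x = x := Iff.rfl

theorem n_mem_rotStab (x : S) : (n : ℤ) ∈ rotStab n x := by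
  rw [mem_rotStab]
  simp [r_zero_smul]

end basic

end DihBase
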