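import Pool.Agent.V11265.Dih.Upper

namespace DihBase

open DihedralGroup

section act

variable {n : ℕ} {S : Type*} [MulAction (DihedralGroup n) S]

theorem not_act_iff {q : ℕ} (x : S) : ¬ Act n q x ↔ ((n / q : ℕ) : ℤ) ∈ rotStab n x := by
  unfold Act
  rw [mem_rotStab, Int.cast_natCast, not_not]

theorem pow_dvd_of_act (hn : n ≠ 0) {q : ℕ} (hq : q.Prime) {x : S} (hx : Act n q x) {d : ℕ}
    (hd : d ∣ n) (hdx : ∀ k : ℤ, k ∈ rotStab n x ↔ (d : ℤ) ∣ k) (i : ℕ) (hi : q ^ i ∣ n) :
    q ^ i ∣ d := by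
  obtain ⟨e, he⟩ := hd
  have h1 : ¬ q ∣ e := by
    rintro ⟨f, rfl⟩
    apply hx
    have h2 : ((n / q : ℕ) : ℤ) ∈ rotStab n x := by
      rw [hdx]
      have h5 : n / q = d * f := by
        rw [he, show d * (q * f) = q * (d * f) by ring]
        exact Nat.mul_div_cancel_left _ hq.pos
      rw [h5]
      exact_mod_cast Dvd.intro f rfl
    rw [mem_rotStab, Int.cast_natCast] at h2
    exact h2
  have h3 : Nat.Coprime (q ^ i) e := Nat.Coprime.pow_left _ ((Nat.Prime.coprime_iff_not_dvd hq).2 h1)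
  rw [he] at hi
  exact h3.dvd_of_dvd_mul_right hi

theorem act_r_smul {q : ℕ} (j : ZMod n) (x : S) :
    Act n q ((r j : DihedralGroup n) • x) ↔ Act n q x := by
  unfold Act
  rw [r_r_smul, add_comm, ← r_r_smul]
  simp

theorem act_sr_smul {q : ℕ} (j : ZMod n) (x : S) :
    Act n q ((sr j : DihedralGroup n) • x) ↔ Act n q x := by
  unfold Act
  rw [r_sr_smul]
  set i : ZMod n := ((n / q : ℕ) : ZMod n)
  have h1 : (sr (j - i) : DihedralGroup n) • x = (sr j : DihedralGroup n) • (r (-i) : DihedralGroup n) • x := by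
    rw [sr_r_smul, sub_eq_add_neg]
  rw [h1]
  have h2 : (sr j : DihedralGroup n) • (r (-i) : DihedralGroup n) • x = (sr j : DihedralGroup n) • x ↔
      (r (-i) : DihedralGroup n) • x = x := by simp
  rw [ne_eq, h2, ne_eq]
  refine not_congr ⟨fun h => ?_, fun h => ?_⟩
  · have := congrArg (fun z => (r i : DihedralGroup n) • z) h
    simp only [r_r_smul, add_neg_cancel, r_zero_smul] at this
    exact this.symm
  · have := congrArg (fun z => (r (-i) : DihedralGroup n) • z) h
    simp only [r_r_smul, neg_add_cancel, r_zero_smul] at this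
    exact this.symm

variable [FaithfulSMul (DihedralGroup n) S]

theorem unique_act (hn : n ≠ 0)
    (hbase : ∀ B : Finset S, IsBase (DihedralGroup n) B → n.primeFactors.card + 1 ≤ B.card)
    {q q' : ℕ} (hq : q ∈ n.primeFactors) (hq' : q' ∈ n.primeFactors) {x : S}
    (h : Act n q x) (h' : Act n q' x) : q = q' := by
  classical
  by_contra hne
  obtain ⟨B, hB, hB'⟩ := exists_cover (n := n) (S := S) hn ((n.primeFactors.erase q).erase q')
    (fun a ha => Finset.mem_of_mem_erase (Finset.mem_of_mem_erase ha))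
  have hc1 : ((n.primeFactors.erase q).erase q').card + 2 = n.primeFactors.card := by
    have h1 := Finset.card_erase_add_one hq
    have h2 := Finset.card_erase_add_one (Finset.mem_erase.2 ⟨Ne.symm hne, hq'⟩ :
      q' ∈ n.primeFactors.erase q)
    omega
  have hall : AllAct n (insert x B) := by
    intro a ha
    by_cases h1 : a = q
    · subst h1
      exact ⟨x, Finset.mem_insert_self _ _, h⟩
    · by_cases h2 : a = q'
      · subst h2
        exact ⟨x, Finset.mem_insert_self _ _, h'⟩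
      · obtain ⟨y, hy, hy'⟩ := hB' a (Finset.mem_erase.2 ⟨h2, Finset.mem_erase.2 ⟨h1, ha⟩⟩)
        exact ⟨y, Finset.mem_insert_of_mem hy, hy'⟩
  have : Nonempty S := ⟨x⟩
  obtain ⟨y, hy⟩ := exists_insert_base hn hall
  have h1 := hbase _ hy
  have h2 := Finset.card_insert_le y (insert x B)
  have h3 := Finset.card_insert_le x B
  omega

theorem common_refl (hn : n ≠ 0)
    (hbase : ∀ B : Finset S, IsBase (DihedralGroup n) B → n.primeFactors.card + 1 ≤ B.card)
    {q q' : ℕ} (hq : q ∈ n.primeFactors) (hq' : q' ∈ n.primeFactors) (hne : q ≠ q') {x y : S}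
    (h : Act n q x) (h' : Act n q' y) :
    ∃ a : ℤ, (sr (a : ZMod n) : DihedralGroup n) • x = x ∧
      (sr (a : ZMod n) : DihedralGroup n) • y = y := by
  classical
  obtain ⟨B, hB, hB'⟩ := exists_cover (n := n) (S := S) hn ((n.primeFactors.erase q).erase q')
    (fun a ha => Finset.mem_of_mem_erase (Finset.mem_of_mem_erase ha))
  have hc1 : ((n.primeFactors.erase q).erase q').card + 2 = n.primeFactors.card := by
    have h1 := Finset.card_erase_add_one hq
    have h2 := Finset.card_erase_add_one (Finset.mem_erase.2 ⟨Ne.symm hne, hq'⟩ :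
      q' ∈ n.primeFactors.erase q)
    omega
  have hall : AllAct n (insert x (insert y B)) := by
    intro a ha
    by_cases h1 : a = q
    · subst h1
      exact ⟨x, Finset.mem_insert_self _ _, h⟩
    · by_cases h2 : a = q'
      · subst h2
        exact ⟨y, Finset.mem_insert_of_mem (Finset.mem_insert_self _ _), h'⟩
      · obtain ⟨z, hz, hz'⟩ := hB' a (Finset.mem_erase.2 ⟨h2, Finset.mem_erase.2 ⟨h1, ha⟩⟩)
        exact ⟨z, Finset.mem_insert_of_mem (Finset.mem_insert_of_mem hz), hz'⟩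
  by_contra hcon
  push Not at hcon
  have hb : IsBase (DihedralGroup n) (insert x (insert y B)) := by
    intro g hg
    rcases g with i | b
    · rw [rot_trivial hn hall i hg, one_def]
    · exfalso
      obtain ⟨c, hc⟩ := ZMod.intCast_surjective b
      refine hcon c ?_ ?_
      · rw [hc]; exact hg x (Finset.mem_insert_self _ _)
      · rw [hc]; exact hg y (Finset.mem_insert_of_mem (Finset.mem_insert_self _ _))
  have h1 := hbase _ hb
  have h2 := Finset.card_insert_le x (insert y B)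
  have h3 := Finset.card_insert_le y B
  omega

end act

theorem no_large_base_aux {n p : ℕ} {V : Type*} [MulAction (DihedralGroup n) V]
    [FaithfulSMul (DihedralGroup n) V] (Γ : SimpleGraph V)
    (hadj : ∀ (g : DihedralGroup n) (v w : V), Γ.Adj (g • v) (g • w) ↔ Γ.Adj v w)
    (hfull : ∀ f : Γ ≃g Γ, ∃ g : DihedralGroup n, ∀ v, f v = g • v)
    (hbase : ∀ B : Finset V, IsBase (DihedralGroup n) B → n.primeFactors.card + 1 ≤ B.card)
    (hn : n ≠ 0) (hp : p.Prime) (hp2 : p ≠ 2) (hpn : p ∣ n) (hpp : ¬ p ^ 2 ∣ n)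
    (h1 : n ≠ p) (h2 : n ≠ 2 * p) : False := by
  classical
  obtain ⟨m, hm⟩ := hpn
  have hm0 : m ≠ 0 := by
    rintro rfl; simp at hm; exact hn hm
  have hnp : n / p = m := by
    rw [hm]; exact Nat.mul_div_cancel_left _ hp.pos
  have hpm : ¬ p ∣ m := by
    rintro ⟨c, rfl⟩
    exact hpp ⟨c, by rw [hm]; ring⟩
  have hpmem : p ∈ n.primeFactors := by
    rw [Nat.mem_primeFactors]; exact ⟨hp, ⟨m, hm⟩, hn⟩
  -- rotation conjugates
  have key1 : ∀ (x : V) (i : ZMod n), (sr i : DihedralGroup n) • (r 1 : DihedralGroup n) • x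
      = (r 1 : DihedralGroup n) • x → (sr (i + 2) : DihedralGroup n) • x = x := by
    intro x i h
    have := congrArg (fun z => (r (-1) : DihedralGroup n) • z) h
    simp only [r_r_smul, sr_r_smul, r_sr_smul, neg_add_cancel, r_zero_smul] at this
    rw [show i + 1 - -1 = i + 2 by ring] at this
    exact this
  -- gcd condition
  have hgcd : ∀ {q : ℕ} {a y : V} {da dy : ℕ}, q ∈ n.primeFactors → q ≠ p → Act n p a → Act n q y →
      (∀ k : ℤ, k ∈ rotStab n a ↔ (da : ℤ) ∣ k) → (∀ k : ℤ, k ∈ rotStab n y ↔ (dy : ℤ) ∣ k) →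
      ∀ g : ℕ, g ∣ da → g ∣ dy → g ∣ 2 := by
    intro q a y da dy hq hqp ha hy hda hdy g hga hgy
    obtain ⟨u, hu1, hu2⟩ := common_refl hn hbase hpmem hq (Ne.symm hqp) ha hy
    obtain ⟨w, hw1, hw2⟩ := common_refl hn hbase hpmem hq (Ne.symm hqp)
      ((act_r_smul (n := n) (q := p) 1 a).2 ha) hy
    have hw3 := key1 a _ hw1
    have h3 : (w + 2 - u : ℤ) ∈ rotStab n a := by
      rw [mem_rotStab]
      push_cast
      rw [← sr_sr_smul, hw3, hu1]
    have h4 : (w - u : ℤ) ∈ rotStab n y := by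
      rw [mem_rotStab]
      push_cast
      rw [← sr_sr_smul, hw2, hu2]
    rw [hda] at h3
    rw [hdy] at h4
    have h5 : (g : ℤ) ∣ w + 2 - u := dvd_trans (by exact_mod_cast hga) h3
    have h6 : (g : ℤ) ∣ w - u := dvd_trans (by exact_mod_cast hgy) h4
    have h7 := dvd_sub h5 h6
    rw [show w + 2 - u - (w - u) = ((2 : ℕ) : ℤ) by push_cast; ring] at h7
    exact_mod_cast h7
  -- structure of the stabiliser of an active point
  have hstr : ∀ {a : V} {da : ℕ}, Act n p a → da ∣ n → (∀ k : ℤ, k ∈ rotStab n a ↔ (da : ℤ) ∣ k) →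
      ∃ m', da = p * m' ∧ m' ∣ m ∧ m' ∣ 2 := by
    intro a da ha hdn hda
    have h3 : p ^ 1 ∣ da := pow_dvd_of_act hn hp ha hdn hda 1 (by rw [pow_one]; exact ⟨m, hm⟩)
    rw [pow_one] at h3
    obtain ⟨m', rfl⟩ := h3
    have h4 : m' ∣ m := by
      rw [hm] at hdn
      exact Nat.dvd_of_mul_dvd_mul_left hp.pos hdn
    refine ⟨m', rfl, h4, ?_⟩
    rw [Nat.dvd_iff_prime_pow_dvd_dvd]
    intro q k hq hqk
    by_cases hk : k = 0
    · subst hk; simp
    have hqm : q ∣ m := dvd_trans (dvd_pow_self q hk) (dvd_trans hqk h4)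
    have hqn : q ∈ n.primeFactors := by
      rw [Nat.mem_primeFactors]; exact ⟨hq, dvd_trans hqm ⟨p, by rw [hm]; ring⟩, hn⟩
    have hqp : q ≠ p := by
      rintro rfl; exact hpm hqm
    obtain ⟨y, hy⟩ := exists_active (n := n) (S := V) hn hqn
    obtain ⟨dy, hdy0, hdyn, hdy⟩ := gen_rotStab hn y
    have h5 : q ^ k ∣ dy := pow_dvd_of_act hn hq hy hdyn hdy k
      (dvd_trans hqk (dvd_trans h4 ⟨p, by rw [hm]; ring⟩))
    exact hgcd hqn hqp ha hy hda hdy _ (dvd_trans hqk (Dvd.intro_left p rfl)) h5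
  -- an active point has a reflection
  have href : ∀ {q : ℕ} {y : V}, q ∈ n.primeFactors → Act n q y →
      ∃ u : ℤ, (sr (u : ZMod n) : DihedralGroup n) • y = y := by
    intro q y hq hy
    by_cases hqp : q = p
    · subst hqp
      -- need another prime
      have : ∃ q' ∈ n.primeFactors, q' ≠ q := by
        by_contra hcon
        push Not at hcon
        have hm1 : m ≠ 1 := by
          rintro rfl; apply h1; rw [hm]; ring
        obtain ⟨q', hq', hq'm⟩ := Nat.exists_prime_and_dvd hm1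
        have := hcon q' (by
          rw [Nat.mem_primeFactors]; exact ⟨hq', dvd_trans hq'm ⟨q, by rw [hm]; ring⟩, hn⟩)
        subst this
        exact hpm hq'm
      obtain ⟨q', hq', hne⟩ := this
      obtain ⟨z, hz⟩ := exists_active (n := n) (S := V) hn hq'
      obtain ⟨u, hu, -⟩ := common_refl hn hbase hq hq' (Ne.symm hne) hy hz
      exact ⟨u, hu⟩
    · obtain ⟨z, hz⟩ := exists_active (n := n) (S := V) hn hpmem
      obtain ⟨u, hu, -⟩ := common_refl hn hbase hq hpmem hqp hy hz
      exact ⟨u, hu⟩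
  -- choice of the reflection
  have hk0 : ∃ k0 : ℤ, ∀ (a : V) (da : ℕ), Act n p a → da ∣ n →
      (∀ k : ℤ, k ∈ rotStab n a ↔ (da : ℤ) ∣ k) → ∀ u : ℤ,
      (sr (u : ZMod n) : DihedralGroup n) • a = a → 2 ∣ da → (2 : ℤ) ∣ u - k0 := by
    by_cases h2n : 2 ∣ n
    · have h2mem : 2 ∈ n.primeFactors := by
        rw [Nat.mem_primeFactors]; exact ⟨Nat.prime_two, h2n, hn⟩
      obtain ⟨y, hy⟩ := exists_active (n := n) (S := V) hn h2mem
      obtain ⟨k0, hk0⟩ := href h2mem hy
      refine ⟨k0, ?_⟩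
      intro a da ha hdn hda u hu h2da
      obtain ⟨w, hw1, hw2⟩ := common_refl hn hbase hpmem h2mem hp2 ha hy
      obtain ⟨dy, hdy0, hdyn, hdy⟩ := gen_rotStab hn y
      have h5 : 2 ^ 1 ∣ dy := pow_dvd_of_act hn Nat.prime_two hy hdyn hdy 1 (by simpa using h2n)
      rw [pow_one] at h5
      have h3 : (u - w : ℤ) ∈ rotStab n a := by
        rw [mem_rotStab]
        push_cast
        rw [← sr_sr_smul, hu, hw1]
      have h4 : (w - k0 : ℤ) ∈ rotStab n y := by
        rw [mem_rotStab]
        push_cast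
        rw [← sr_sr_smul, hw2, hk0]
      rw [hda] at h3
      rw [hdy] at h4
      have h6 : (2 : ℤ) ∣ u - w := dvd_trans (by exact_mod_cast h2da) h3
      have h7 : (2 : ℤ) ∣ w - k0 := dvd_trans (by exact_mod_cast h5) h4
      have h8 := dvd_add h6 h7
      rw [show u - w + (w - k0) = u - k0 by ring] at h8
      exact h8
    · exact ⟨0, fun a da ha hdn hda u hu h2da => absurd (dvd_trans h2da hdn) h2n⟩
  obtain ⟨k0, hk0⟩ := hk0
  -- the reflection moves active points inside their `P`-orbit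
  have horb : ∀ a : V, Act n p a → ∃ j : ℤ, (sr (k0 : ZMod n) : DihedralGroup n) • a
      = (r ((j * (m : ℤ) : ℤ) : ZMod n) : DihedralGroup n) • a := by
    intro a ha
    obtain ⟨da, hda0, hdn, hda⟩ := gen_rotStab hn a
    obtain ⟨m', hm', hm'm, hm'2⟩ := hstr ha hdn hda
    obtain ⟨u, hu⟩ := href hpmem ha
    have hcop : IsCoprime (p : ℤ) (m : ℤ) := by
      rw [Nat.isCoprime_iff_coprime]
      exact (Nat.Prime.coprime_iff_not_dvd hp).2 hpm
    obtain ⟨s, t, hst⟩ := hcop
    refine ⟨(u - k0) * t, ?_⟩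
    have h3 : (sr (k0 : ZMod n) : DihedralGroup n) • a
        = (r ((u - k0 : ℤ) : ZMod n) : DihedralGroup n) • a := by
      push_cast
      rw [← sr_sr_smul, hu]
    have h4 : ((u - k0) - (u - k0) * t * (m : ℤ) : ℤ) ∈ rotStab n a := by
      rw [hda, hm']
      have h5 : (p : ℤ) ∣ (u - k0) - (u - k0) * t * (m : ℤ) := by
        refine ⟨(u - k0) * s, ?_⟩
        have : (u - k0) = (u - k0) * (s * p + t * m) := by rw [hst, mul_one]
        linear_combination this
      have h6 : (m' : ℤ) ∣ (u - k0) - (u - k0) * t * (m : ℤ) := by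
        apply dvd_sub
        · rcases (Nat.dvd_prime Nat.prime_two).1 hm'2 with h | h
          · rw [h]; simp
          · rw [h]
            exact hk0 a da ha hdn hda u hu (by rw [hm', h]; exact Dvd.intro_left p rfl)
        · exact Dvd.dvd.mul_left (by exact_mod_cast hm'm) _
      push_cast
      apply IsCoprime.mul_dvd _ h5 h6
      rw [Nat.isCoprime_iff_coprime]
      exact (Nat.Prime.coprime_iff_not_dvd hp).2 (fun h => hpm (dvd_trans h hm'm))
    rw [h3]
    rw [mem_rotStab] at h4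
    have h5 := congrArg (fun z => (r ((((u - k0) * t * (m : ℤ) : ℤ)) : ZMod n) : DihedralGroup n) • z) h4
    simp only [r_r_smul] at h5
    rw [← h5]
    congr 2
    push_cast
    ring
  -- the local reflection
  let τ : V → V := fun v => if Act n p v then (sr (k0 : ZMod n) : DihedralGroup n) • v else v
  have hτ1 : ∀ v, Act n p v → τ v = (sr (k0 : ZMod n) : DihedralGroup n) • v := fun v hv => if_pos hv
  have hτ2 : ∀ v, ¬ Act n p v → τ v = v := fun v hv => if_neg hv
  have hτ : Function.Involutive τ := by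
    intro v
    by_cases hv : Act n p v
    · rw [hτ1 v hv, hτ1 _ ((act_sr_smul _ _).2 hv), sr_sr_smul, sub_self, r_zero_smul]
    · rw [hτ2 v hv, hτ2 v hv]
  have hmix : ∀ v w, Act n p v → ¬ Act n p w →
      (Γ.Adj ((sr (k0 : ZMod n) : DihedralGroup n) • v) w ↔ Γ.Adj v w) := by
    intro v w hv hw
    obtain ⟨j, hj⟩ := horb v hv
    rw [hj]
    rw [not_act_iff, hnp] at hw
    have h3 : (j * (m : ℤ) : ℤ) ∈ rotStab n w := by
      rw [← smul_eq_mul]
      exact (rotStab n w).zsmul_mem hw _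
    rw [mem_rotStab] at h3
    nth_rewrite 1 [← h3]
    exact hadj _ _ _
  have hadjτ : ∀ v w, Γ.Adj (τ v) (τ w) ↔ Γ.Adj v w := by
    intro v w
    by_cases hv : Act n p v
    · by_cases hw : Act n p w
      · rw [hτ1 v hv, hτ1 w hw]; exact hadj _ _ _
      · rw [hτ1 v hv, hτ2 w hw]; exact hmix v w hv hw
    · by_cases hw : Act n p w
      · rw [hτ2 v hv, hτ1 w hw, Γ.adj_comm, hmix w v hw hv, Γ.adj_comm]
      · rw [hτ2 v hv, hτ2 w hw]
  let f : Γ ≃g Γ := { toEquiv := Function.Involutive.toPerm τ hτ, map_rel_iff' := fun {v w} => hadjτ v w }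
  have hf : ∀ v, f v = τ v := fun v => rfl
  obtain ⟨g, hg⟩ := hfull f
  have hg' : ∀ v, τ v = g • v := fun v => by rw [← hf, hg]
  obtain ⟨a, ha⟩ := exists_active (n := n) (S := V) hn hpmem
  rcases g with i | i
  · -- rotation case
    have e1 := hg' a
    rw [hτ1 a ha] at e1
    have hra : Act n p ((r (m : ZMod n) : DihedralGroup n) • a) := (act_r_smul _ _).2 ha
    have e2 := hg' ((r (m : ZMod n) : DihedralGroup n) • a)
    rw [hτ1 _ hra, r_r_smul, add_comm, ← r_r_smul, ← e1, sr_r_smul, r_sr_smul] at e2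
    have e3 := congrArg (fun z => (sr (k0 : ZMod n) : DihedralGroup n) • z) e2
    simp only [sr_sr_smul] at e3
    have e4 := congrArg (fun z => (r (m : ZMod n) : DihedralGroup n) • z) e3
    simp only [r_r_smul] at e4
    rw [show (m : ZMod n) + ((k0 : ZMod n) - m - k0) = 0 by ring, r_zero_smul,
      show (m : ZMod n) + ((k0 : ZMod n) + m - k0) = ((2 * m : ℤ) : ZMod n) by push_cast; ring] at e4
    obtain ⟨da, hda0, hdn, hda⟩ := gen_rotStab hn a
    have e5 : (2 * m : ℤ) ∈ rotStab n a := e4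
    rw [hda] at e5
    obtain ⟨m', hm', -, -⟩ := hstr ha hdn hda
    have e6 : da ∣ 2 * m := by exact_mod_cast e5
    have e7 : p ∣ 2 * m := dvd_trans ⟨m', hm'⟩ e6
    rcases (Nat.Prime.dvd_mul hp).1 e7 with h | h
    · exact hp2 ((Nat.prime_dvd_prime_iff_eq hp Nat.prime_two).1 h)
    · exact hpm h
  · -- reflection case
    have hm2 : ¬ m ∣ 2 := by
      intro h
      rcases (Nat.dvd_prime Nat.prime_two).1 h with h | h
      · apply h1; rw [hm, h]; ring
      · apply h2; rw [hm, h]; ring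
    rw [Nat.dvd_iff_prime_pow_dvd_dvd] at hm2
    push Not at hm2
    obtain ⟨q, k, hq, hqk, hqk2⟩ := hm2
    have hk : k ≠ 0 := by
      rintro rfl; simp at hqk2
    have hqm : q ∣ m := dvd_trans (dvd_pow_self q hk) hqk
    have hmn : m ∣ n := ⟨p, by rw [hm]; ring⟩
    have hqn : q ∈ n.primeFactors := by
      rw [Nat.mem_primeFactors]; exact ⟨hq, dvd_trans hqm hmn, hn⟩
    have hqp : q ≠ p := by
      rintro rfl; exact hpm hqm
    obtain ⟨y, hy⟩ := exists_active (n := n) (S := V) hn hqn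
    obtain ⟨dy, hdy0, hdyn, hdy⟩ := gen_rotStab hn y
    have hyA : ¬ Act n p y := fun h => hqp (unique_act hn hbase hqn hpmem hy h)
    have hyA' : ¬ Act n p ((r 1 : DihedralGroup n) • y) := fun h => hyA ((act_r_smul _ _).1 h)
    have e1 := hg' y
    rw [hτ2 y hyA] at e1
    have e2 := hg' ((r 1 : DihedralGroup n) • y)
    rw [hτ2 _ hyA'] at e2
    have e3 := key1 y i e2.symm
    have e4 : (2 : ℤ) ∈ rotStab n y := by
      rw [mem_rotStab]
      have : ((2 : ℤ) : ZMod n) = i + 2 - i := by push_cast; ring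
      rw [this, ← sr_sr_smul, e3, ← e1]
    rw [hdy] at e4
    have e5 : dy ∣ 2 := by exact_mod_cast e4
    exact hqk2 (dvd_trans (pow_dvd_of_act hn hq hy hdyn hdy k (dvd_trans hqk hmn)) e5)

end DihBase
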