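import Pool.Agent.V11265.Dih.Base

namespace DihBase

open DihedralGroup

/-- vertices -/
inductive U : Type
  | A (x : ZMod 2)
  | B (j : ZMod 2)

open U

/-- one edge and two isolated points -/
def Tw : SimpleGraph U := SimpleGraph.fromRel (fun v w => match v, w with
  | A _, A _ => True
  | _, _ => False)

instance : Finite U := by
  let f : U → ZMod 2 ⊕ ZMod 2 := fun v => match v with
    | A x => Sum.inl x
    | B j => Sum.inr j
  apply Finite.of_injective f
  intro v w h
  cases v <;> cases w <;> simp_all [f]

theorem Tw_AA (x y : ZMod 2) : Tw.Adj (A x) (A y) ↔ x ≠ y := by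
  unfold Tw
  rw [SimpleGraph.fromRel_adj]
  simp

theorem Tw_B (j : ZMod 2) (v : U) : ¬ Tw.Adj (B j) v := by
  unfold Tw
  rw [SimpleGraph.fromRel_adj]
  cases v <;> simp

/-- action -/
def actU : DihedralGroup 2 → U → U
  | r k, A x => A (x + k)
  | sr k, A x => A (x + k)
  | r _, B j => B j
  | sr _, B j => B (j + 1)

instance : MulAction (DihedralGroup 2) U where
  smul := actU
  one_smul := by
    intro v
    change actU 1 v = v
    rw [one_def]
    cases v <;> simp [actU]
  mul_smul := by
    intro g h v
    change actU (g * h) v = actU g (actU h v)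
    have h1 : ∀ a b c : ZMod 2, a + (b - c) = a + b + c := by decide
    have h2 : ∀ a : ZMod 2, a = a + 1 + 1 := by decide
    have h3 : ∀ a b c : ZMod 2, a + (b + c) = a + c + b := by decide
    rcases g with k | k <;> rcases h with l | l <;> cases v <;>
      simp only [r_mul_r, r_mul_sr, sr_mul_r, sr_mul_sr, actU]
    · rw [h3]
    · rw [h1]
    · rw [h3]
    · rw [h1]
    · rw [← h2]

theorem smul_defU (g : DihedralGroup 2) (v : U) : g • v = actU g v := rfl

theorem adj_smul_ofU (g : DihedralGroup 2) {v w : U} (h : Tw.Adj v w) :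
    Tw.Adj (g • v) (g • w) := by
  rw [smul_defU, smul_defU]
  cases v with
  | B j => exact absurd h (Tw_B j _)
  | A x =>
    cases w with
    | B j => exact absurd h.symm (Tw_B j _)
    | A y =>
      rw [Tw_AA] at h
      rcases g with k | k
      · simp only [actU]
        rw [Tw_AA]
        simpa using h
      · simp only [actU]
        rw [Tw_AA]
        simpa using h

theorem adj_smulU (g : DihedralGroup 2) (v w : U) :
    Tw.Adj (g • v) (g • w) ↔ Tw.Adj v w := by
  refine ⟨fun h => ?_, adj_smul_ofU g⟩
  have := adj_smul_ofU g⁻¹ h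
  simpa using this

/-- The homomorphism from the dihedral group to the automorphism group. -/
def Chi : DihedralGroup 2 →* (Tw ≃g Tw) where
  toFun g := { toEquiv := MulAction.toPerm g, map_rel_iff' := fun {v w} => adj_smulU g v w }
  map_one' := by
    ext v
    exact one_smul (DihedralGroup 2) v
  map_mul' g h := by
    ext v
    exact mul_smul g h v

theorem Chi_apply (g : DihedralGroup 2) (v : U) : Chi g v = g • v := rfl

theorem Chi_injective : Function.Injective Chi := by
  rw [injective_iff_map_eq_one]
  intro g hg
  have h1 : ∀ v : U, g • v = v := fun v => by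
    rw [← Chi_apply, hg]; rfl
  rcases g with k | k
  · have := h1 (A 0)
    rw [smul_defU] at this
    simp only [actU, zero_add, A.injEq] at this
    rw [this, one_def]
  · exfalso
    have := h1 (B 0)
    rw [smul_defU] at this
    simp [actU] at this

theorem Chi_surjective : Function.Surjective Chi := by
  intro φ
  have hφ : ∀ v w, Tw.Adj (φ v) (φ w) ↔ Tw.Adj v w := fun v w => φ.map_rel_iff
  have hA : ∀ z : ZMod 2, ∃ w, φ (A z) = A w := by
    intro z
    have h1 := (hφ (A z) (A (z + 1))).2 ((Tw_AA _ _).2 (by revert z; decide))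
    cases h : φ (A z) with
    | A x => exact ⟨x, rfl⟩
    | B j => rw [h] at h1; exact absurd h1 (Tw_B j _)
  have hB : ∀ j : ZMod 2, ∃ j', φ (B j) = B j' := by
    intro j
    cases h : φ (B j) with
    | A x =>
      exfalso
      have h1 : Tw.Adj (φ (B j)) (φ (φ.symm (A (x + 1)))) := by
        rw [h]; simp only [RelIso.apply_symm_apply]
        exact (Tw_AA _ _).2 ((by decide : ∀ x : ZMod 2, x ≠ x + 1) x)
      rw [hφ] at h1
      exact Tw_B j _ h1
    | B j' => exact ⟨j', rfl⟩
  choose f hf using hA
  choose g hg using hB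
  have hfinj : Function.Injective f := by
    intro a b hab
    have := φ.injective ((hf a).trans ((congrArg A hab).trans (hf b).symm))
    simpa using this
  have hginj : Function.Injective g := by
    intro a b hab
    have := φ.injective ((hg a).trans ((congrArg B hab).trans (hg b).symm))
    simpa using this
  obtain ⟨h1, hh1⟩ := small_mod (Or.inr rfl) f hfinj
  obtain ⟨h2, hh2⟩ := small_mod (Or.inr rfl) g hginj
  have key2 : ∀ s : ZMod 2, s = 0 ∨ s = 1 := by decide
  rcases key2 h2 with h | h
  · refine ⟨r h1, ?_⟩
    ext w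
    rw [Chi_apply, smul_defU]
    cases w with
    | A x => rw [hf, hh1]; simp only [actU]; rw [add_comm]
    | B j => rw [hg, hh2, h]; simp only [actU]; rw [zero_add]
  · refine ⟨sr h1, ?_⟩
    ext w
    rw [Chi_apply, smul_defU]
    cases w with
    | A x => rw [hf, hh1]; simp only [actU]; rw [add_comm]
    | B j => rw [hg, hh2, h]; simp only [actU]; rw [add_comm]

/-- The dihedral group is isomorphic to the automorphism group. -/
noncomputable def ChiEquiv : DihedralGroup 2 ≃* (Tw ≃g Tw) :=
  MulEquiv.ofBijective Chi ⟨Chi_injective, Chi_surjective⟩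

instance : FaithfulSMul (DihedralGroup 2) U where
  eq_of_smul_eq_smul := by
    intro g h hgh
    apply Chi_injective
    ext v
    exact hgh v

theorem baseTwo (S : Finset U) (hS : IsBase (DihedralGroup 2) S) : 2 ≤ S.card := by
  have hA : ∃ x, A x ∈ S := by
    by_contra hcon
    push Not at hcon
    have := hS (r 1) (by
      intro v hv
      cases v with
      | A x => exact absurd hv (hcon x)
      | B j => rfl)
    exact absurd this (by decide)
  have hB : ∃ x, B x ∈ S := by
    by_contra hcon
    push Not at hcon
    have := hS (sr 0) (by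
      intro v hv
      cases v with
      | A x => rw [smul_defU]; simp [actU]
      | B j => exact absurd hv (hcon j))
    exact absurd this (by decide)
  obtain ⟨x, hx⟩ := hA
  obtain ⟨y, hy⟩ := hB
  have : 1 < S.card := Finset.one_lt_card.2 ⟨_, hx, _, hy, by simp⟩
  exact this

theorem two_mem_det : 2 ∈ DeterminingSet (DihedralGroup 2) := by
  have h : IsBaseSize (DihedralGroup 2) U 2 := by
    have hne : Nonempty U := ⟨A 0⟩
    obtain ⟨S, hS1, hS2⟩ := exists_base_le (n := 2) (S := U) (by norm_num)
    have h1 : (2 : ℕ).primeFactors.card = 1 := by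
      rw [Nat.Prime.primeFactors Nat.prime_two]; rfl
    have h2 := baseTwo S hS2
    refine ⟨⟨S, by omega, hS2⟩, ?_⟩
    rintro k ⟨S', rfl, hS'⟩
    exact baseTwo S' hS'
  exact ⟨U, inferInstance, Tw, ⟨ChiEquiv⟩,
    (isBaseSize_iff ChiEquiv (fun _ _ => rfl) 2).1 h⟩

end DihBase
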