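import Pool.Agent.V11265.Dih.Cyc
import Pool.Agent.V11265.Dih.Two
import Pool.Agent.V11265.Dih.Neg

namespace DihBase

open DihedralGroup

/-- `n` is an odd prime, or twice an odd prime, or every odd prime dividing `n` divides it at
least twice. -/
def Good (n : ℕ) : Prop :=
  (∃ p : ℕ, p.Prime ∧ p ≠ 2 ∧ (n = p ∨ n = 2 * p)) ∨
    ∀ p : ℕ, p.Prime → p ≠ 2 → p ∣ n → p ^ 2 ∣ n

/-- the parameters attached to a set of primes -/
noncomputable def mkPar (n : ℕ) (hn : n ≠ 0) (T : Finset ℕ) (hT : T ⊆ n.primeFactors)
    (hne : T.Nonempty)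
    (e : ℕ) (he : e = 1 ∨ e = 2) (hen : e ∣ n) (hed : ∀ q ∈ T, Nat.Coprime e q)
    (hcov : ∀ q j : ℕ, q.Prime → q ^ j ∣ n → q ∈ T ∨ q ^ j ∣ e) : Par n where
  ι := {q // q ∈ T}
  fι := inferInstance
  neι := hne.to_subtype
  c := fun q => q.1 ^ (n.factorization q.1 - 1)
  d := fun q => q.1 ^ n.factorization q.1
  e := e
  hn := hn
  hdn := fun q => Nat.ordProj_dvd n q.1
  hen := hen
  hcop := fun p q hpq => by
    have hp := Nat.prime_of_mem_primeFactors (hT p.2)
    have hq := Nat.prime_of_mem_primeFactors (hT q.2)
    have : p.1 ≠ q.1 := fun h => hpq (Subtype.ext h)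
    exact Nat.Coprime.pow _ _ ((Nat.coprime_primes hp hq).2 this)
  hed := fun q => Nat.Coprime.pow_right _ (hed q.1 q.2)
  hlcm := fun k hk hek => by
    have h1 : n ∣ k.natAbs := by
      rw [Nat.dvd_iff_prime_pow_dvd_dvd]
      intro q j hq hqj
      rcases hcov q j hq hqj with h | h
      · have h2 : j ≤ n.factorization q := (hq.pow_dvd_iff_le_factorization hn).1 hqj
        have h3 := hk ⟨q, h⟩
        have h4 : q ^ n.factorization q ∣ k.natAbs := Int.natCast_dvd.1 h3
        exact dvd_trans (pow_dvd_pow q h2) h4
      · exact dvd_trans h (Int.natCast_dvd.1 hek)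
    exact Int.natCast_dvd.2 h1
  hc1 := fun q => Nat.one_le_pow _ _ (Nat.prime_of_mem_primeFactors (hT q.2)).pos
  hd2 := fun q => by
    have hq := Nat.prime_of_mem_primeFactors (hT q.2)
    have h1 : 1 ≤ n.factorization q.1 := (hq.dvd_iff_one_le_factorization hn).1
      (Nat.dvd_of_mem_primeFactors (hT q.2))
    calc 2 ≤ q.1 := hq.two_le
      _ = q.1 ^ 1 := (pow_one _).symm
      _ ≤ _ := Nat.pow_le_pow_right hq.pos h1
  hcd := fun q => pow_dvd_pow _ (Nat.sub_le _ _)
  he := he

theorem mkPar_cd (n : ℕ) (hn : n ≠ 0) (T : Finset ℕ) (hT : T ⊆ n.primeFactors)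
    (q : {q // q ∈ T}) : q.1 ^ (n.factorization q.1 - 1) < q.1 ^ n.factorization q.1 := by
  have hq := Nat.prime_of_mem_primeFactors (hT q.2)
  have h1 : 1 ≤ n.factorization q.1 := (hq.dvd_iff_one_le_factorization hn).1
    (Nat.dvd_of_mem_primeFactors (hT q.2))
  exact Nat.pow_lt_pow_right hq.one_lt (by omega)

theorem nonempty_of_faithful {n : ℕ} {S : Type*} [MulAction (DihedralGroup n) S]
    [FaithfulSMul (DihedralGroup n) S] : Nonempty S := by
  by_contra h
  rw [not_nonempty_iff] at h
  have : (sr 0 : DihedralGroup n) = 1 :=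
    FaithfulSMul.eq_of_smul_eq_smul (α := S) (fun a => (IsEmpty.false a).elim)
  rw [one_def] at this
  cases this

/-- all base sizes are in `[1, ω+1]` -/
theorem baseSizeSet_subset {n : ℕ} (hn : n ≠ 0) :
    BaseSizeSet (DihedralGroup n) ⊆ Set.Icc 1 (n.primeFactors.card + 1) := by
  rintro b ⟨S, _, _, hf, ⟨B, hB1, hB2⟩, hmin⟩
  have hne : Nonempty S := nonempty_of_faithful (n := n)
  constructor
  · by_contra h0
    have h1 : B.card = 0 := by omega
    rw [Finset.card_eq_zero] at h1
    subst h1
    have := hB2 (sr 0) (by simp)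
    rw [one_def] at this
    cases this
  · obtain ⟨B', hB', hB''⟩ := exists_base_le (n := n) (S := S) hn
    exact le_trans (hmin ⟨B', rfl, hB''⟩) hB'

theorem det_subset_base (G : Type) [Group G] : DeterminingSet G ⊆ BaseSizeSet G := by
  rintro b ⟨V, hV, Γ, ⟨φ⟩, hb⟩
  let _ : MulAction G V := MulAction.compHom V φ.toMonoidHom
  have hsm : ∀ (g : G) (v : V), g • v = φ g • v := fun g v => rfl
  refine ⟨V, hV, inferInstance, ⟨?_⟩, ?_⟩
  · intro g h hgh
    apply φ.injective
    ext v
    exact hgh v
  · exact (isBaseSize_iff φ (fun g v => (hsm g v).symm) b).2 hb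

theorem isBaseSize_of_lower {n : ℕ} (hn : n ≠ 0) {S : Type*} [MulAction (DihedralGroup n) S]
    [FaithfulSMul (DihedralGroup n) S]
    (h : ∀ B : Finset S, IsBase (DihedralGroup n) B → n.primeFactors.card + 1 ≤ B.card) :
    IsBaseSize (DihedralGroup n) S (n.primeFactors.card + 1) := by
  have hne : Nonempty S := nonempty_of_faithful (n := n)
  obtain ⟨B', hB', hB''⟩ := exists_base_le (n := n) (S := S) hn
  refine ⟨⟨B', le_antisymm hB' (h _ hB''), hB''⟩, ?_⟩
  rintro k ⟨B, rfl, hB⟩
  exact h B hB

/-- `ω + 1` is a base size -/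
theorem top_mem_base {n : ℕ} (hn : 2 ≤ n) :
    n.primeFactors.card + 1 ∈ BaseSizeSet (DihedralGroup n) := by
  have hn0 : n ≠ 0 := by omega
  let P : Par n := mkPar n hn0 n.primeFactors (Finset.Subset.refl _)
    (Nat.nonempty_primeFactors.2 (by omega)) 1 (Or.inl rfl) (one_dvd _)
    (fun q _ => Nat.coprime_one_left q) (fun q j hq hqj => by
      by_cases hj : j = 0
      · right; rw [hj]; simp
      · left
        rw [Nat.mem_primeFactors]
        exact ⟨hq, dvd_trans (dvd_pow_self q hj) hqj, hn0⟩)
  have hP : Nat.card P.ι = n.primeFactors.card := by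
    change Nat.card {q // q ∈ n.primeFactors} = _
    rw [Nat.card_eq_fintype_card, Fintype.card_coe]
  refine ⟨Vtx P, inferInstance, inferInstance, inferInstance, ?_⟩
  apply isBaseSize_of_lower hn0
  intro B hB
  have := baseB P (fun q => mkPar_cd n hn0 n.primeFactors (Finset.Subset.refl _) q) B hB
  rw [hP] at this
  have he : P.e = 1 := rfl
  rw [he] at this
  omega

/-- `j ∈ [1, ω]` is in the determining set -/
theorem low_mem_det {n : ℕ} (hn : 2 ≤ n) {j : ℕ} (hj1 : 1 ≤ j) (hj2 : j ≤ n.primeFactors.card) :
    j ∈ DeterminingSet (DihedralGroup n) := by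
  classical
  have hn0 : n ≠ 0 := by omega
  -- a surjection from the primes to `Fin j`
  have hsurj : ∃ f : {q // q ∈ n.primeFactors} → Fin j, Function.Surjective f := by
    have e1 : {q // q ∈ n.primeFactors} ≃ Fin n.primeFactors.card := n.primeFactors.equivFin
    refine ⟨fun q => ⟨min (e1 q).1 (j - 1), by omega⟩, ?_⟩
    intro i
    refine ⟨e1.symm ⟨i.1, by omega⟩, ?_⟩
    apply Fin.ext
    simp only [Equiv.apply_symm_apply]
    omega
  obtain ⟨f, hf⟩ := hsurj
  let d : Fin j → ℕ := fun i => ∏ q ∈ Finset.univ.filter (fun q => f q = i), q.1 ^ n.factorization q.1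
  have hprime : ∀ q : {q // q ∈ n.primeFactors}, q.1.Prime := fun q =>
    Nat.prime_of_mem_primeFactors q.2
  have hprod : ∏ q : {q // q ∈ n.primeFactors}, q.1 ^ n.factorization q.1 = n := by
    rw [Finset.univ_eq_attach, Finset.prod_attach n.primeFactors (fun q => q ^ n.factorization q)]
    exact Nat.prod_factorization_pow_eq_self hn0
  have hdn : ∀ i, d i ∣ n := by
    intro i
    conv_rhs => rw [← hprod]
    exact Finset.prod_dvd_prod_of_subset _ _ _ (Finset.filter_subset _ _)
  have hqd : ∀ q, q.1 ^ n.factorization q.1 ∣ d (f q) := by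
    intro q
    exact Finset.dvd_prod_of_mem (fun q : {q // q ∈ n.primeFactors} => q.1 ^ n.factorization q.1)
      (Finset.mem_filter.2 ⟨Finset.mem_univ q, rfl⟩)
  let P : Par n :=
    { ι := Fin j
      fι := inferInstance
      neι := ⟨⟨0, by omega⟩⟩
      c := d
      d := d
      e := 1
      hn := hn0
      hdn := hdn
      hen := one_dvd _
      hcop := by
        intro a b hab
        apply Nat.Coprime.prod_left
        intro p hp
        apply Nat.Coprime.prod_right
        intro q hq
        rw [Finset.mem_filter] at hp hq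
        apply Nat.Coprime.pow
        rw [Nat.coprime_primes (hprime p) (hprime q)]
        intro h
        have : p = q := Subtype.ext h
        subst this
        exact hab (hp.2.symm.trans hq.2)
      hed := fun i => Nat.coprime_one_left _
      hlcm := by
        intro k hk _
        have h1 : n ∣ k.natAbs := by
          rw [Nat.dvd_iff_prime_pow_dvd_dvd]
          intro q t hq hqt
          by_cases ht : t = 0
          · rw [ht]; simp
          · have hqm : q ∈ n.primeFactors := by
              rw [Nat.mem_primeFactors]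
              exact ⟨hq, dvd_trans (dvd_pow_self q ht) hqt, hn0⟩
            have h2 : t ≤ n.factorization q := (hq.pow_dvd_iff_le_factorization hn0).1 hqt
            have h3 := hk (f ⟨q, hqm⟩)
            have h4 : d (f ⟨q, hqm⟩) ∣ k.natAbs := Int.natCast_dvd.1 h3
            exact dvd_trans (pow_dvd_pow q h2) (dvd_trans (hqd ⟨q, hqm⟩) h4)
        exact Int.natCast_dvd.2 h1
      hc1 := by
        intro i
        exact Nat.pos_of_dvd_of_pos (hdn i) (by omega)
      hd2 := by
        intro i
        obtain ⟨q, rfl⟩ := hf i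
        have h1 : 1 ≤ n.factorization q.1 := ((hprime q).dvd_iff_one_le_factorization hn0).1
          (Nat.dvd_of_mem_primeFactors q.2)
        have h2 : q.1 ∣ d (f q) := dvd_trans (dvd_pow_self _ (by omega)) (hqd q)
        exact le_trans (hprime q).two_le (Nat.le_of_dvd (Nat.pos_of_dvd_of_pos (hdn _) (by omega)) h2)
      hcd := fun i => dvd_refl _
      he := Or.inl rfl }
  have h := baseA P (fun i => rfl) rfl
  have hP : Nat.card P.ι = j := by
    change Nat.card (Fin j) = j
    simp
  rw [hP] at h
  exact mem_det P (fun i => P.hd2 i) h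

/-- `ω + 1` is in the determining set for good `n` -/
theorem top_mem_det {n : ℕ} (hn : 2 ≤ n) (hg : Good n) :
    n.primeFactors.card + 1 ∈ DeterminingSet (DihedralGroup n) := by
  classical
  have hn0 : n ≠ 0 := by omega
  by_cases hn2 : n = 2
  · subst hn2
    have h1 : (2 : ℕ).primeFactors.card = 1 := by
      rw [Nat.Prime.primeFactors Nat.prime_two]; rfl
    rw [h1]
    exact two_mem_det
  rcases hg with ⟨p, hp, hp2, hnp⟩ | hg
  · have hp3 : 3 ≤ p := by
      have := hp.two_le; omega
    have hcop : Nat.Coprime 2 p := (Nat.coprime_primes Nat.prime_two hp).2 (Ne.symm hp2)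
    have key : ∃ P : Par2 n, P.e = n.primeFactors.card := by
      rcases hnp with rfl | rfl
      · refine ⟨{ d := n, e := 1, hdn := dvd_refl _, hen := one_dvd _,
                  hed := Nat.coprime_one_left _, hlcm := fun k h1 _ => h1, hd3 := hp3,
                  he := Or.inl rfl }, ?_⟩
        rw [Nat.Prime.primeFactors hp]; rfl
      · refine ⟨{ d := p, e := 2, hdn := Dvd.intro_left 2 rfl, hen := Dvd.intro p rfl,
                  hed := hcop, hlcm := fun k h1 h2 => ?_, hd3 := hp3,
                  he := Or.inr rfl }, ?_⟩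
        · push_cast
          exact IsCoprime.mul_dvd (by exact_mod_cast Nat.isCoprime_iff_coprime.2 hcop) h2 h1
        · rw [Nat.primeFactors_mul (by norm_num) (by omega), Nat.Prime.primeFactors hp,
            Nat.Prime.primeFactors Nat.prime_two]
          change 2 = Finset.card ({2} ∪ {p})
          rw [Finset.card_union_of_disjoint]
          · rfl
          · rw [Finset.disjoint_singleton]; exact Ne.symm hp2
    obtain ⟨P, hP⟩ := key
    apply mem_det2 P
    apply isBaseSize_of_lower hn0
    intro B hB
    have := baseC P B hB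
    rw [hP] at this
    exact this
  · -- powerful odd part
    set T := n.primeFactors.filter (fun q => q ^ 2 ∣ n) with hTdef
    have hT : T ⊆ n.primeFactors := Finset.filter_subset _ _
    -- the part at `2`
    have key : ∃ e : ℕ, (e = 1 ∨ e = 2) ∧ e ∣ n ∧ (∀ q ∈ T, Nat.Coprime e q) ∧
        (∀ q j : ℕ, q.Prime → q ^ j ∣ n → q ∈ T ∨ q ^ j ∣ e) ∧
        T.card + (e - 1) = n.primeFactors.card := by
      by_cases h2 : 2 ∣ n ∧ ¬ 2 ^ 2 ∣ n
      · refine ⟨2, Or.inr rfl, h2.1, ?_, ?_, ?_⟩
        · intro q hq
          rw [hTdef, Finset.mem_filter] at hq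
          rw [Nat.coprime_primes Nat.prime_two (Nat.prime_of_mem_primeFactors hq.1)]
          rintro rfl
          exact h2.2 hq.2
        · intro q j hq hqj
          by_cases hj : j = 0
          · right; rw [hj]; simp
          have hqn : q ∣ n := dvd_trans (dvd_pow_self q hj) hqj
          by_cases hq2 : q = 2
          · right
            subst hq2
            have : j = 1 := by
              by_contra hj1
              exact h2.2 (dvd_trans (pow_dvd_pow 2 (by omega)) hqj)
            rw [this, pow_one]
          · left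
            rw [hTdef, Finset.mem_filter, Nat.mem_primeFactors]
            exact ⟨⟨hq, hqn, hn0⟩, hg q hq hq2 hqn⟩
        · have h3 : n.primeFactors = insert 2 T := by
            ext q
            rw [Finset.mem_insert, hTdef, Finset.mem_filter]
            constructor
            · intro hq
              by_cases hq2 : q = 2
              · exact Or.inl hq2
              · exact Or.inr ⟨hq, hg q (Nat.prime_of_mem_primeFactors hq) hq2
                  (Nat.dvd_of_mem_primeFactors hq)⟩
            · rintro (rfl | h)
              · rw [Nat.mem_primeFactors]; exact ⟨Nat.prime_two, h2.1, hn0⟩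
              · exact h.1
          have h4 : (2 : ℕ) ∉ T := by
            rw [hTdef, Finset.mem_filter]
            exact fun h => h2.2 h.2
          rw [h3, Finset.card_insert_of_notMem h4]
      · have hall : ∀ q ∈ n.primeFactors, q ^ 2 ∣ n := by
          intro q hq
          by_cases hq2 : q = 2
          · subst hq2
            by_contra h
            exact h2 ⟨Nat.dvd_of_mem_primeFactors hq, h⟩
          · exact hg q (Nat.prime_of_mem_primeFactors hq) hq2 (Nat.dvd_of_mem_primeFactors hq)
        refine ⟨1, Or.inl rfl, one_dvd _, fun q _ => Nat.coprime_one_left q, ?_, ?_⟩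
        · intro q j hq hqj
          by_cases hj : j = 0
          · right; rw [hj]; simp
          · left
            have hqn : q ∈ n.primeFactors := by
              rw [Nat.mem_primeFactors]
              exact ⟨hq, dvd_trans (dvd_pow_self q hj) hqj, hn0⟩
            rw [hTdef, Finset.mem_filter]
            exact ⟨hqn, hall q hqn⟩
        · have : T = n.primeFactors := by
            rw [hTdef]; exact Finset.filter_true_of_mem hall
          rw [this]; rfl
    obtain ⟨e, he, hen, hed, hcov, hcard⟩ := key
    have hTne : T.Nonempty := by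
      by_contra hcon
      rw [Finset.not_nonempty_iff_eq_empty] at hcon
      have h1 : n ∣ e := by
        rw [Nat.dvd_iff_prime_pow_dvd_dvd]
        intro q j hq hqj
        rcases hcov q j hq hqj with h | h
        · rw [hcon] at h; simp at h
        · exact h
      have := Nat.le_of_dvd (by omega) h1
      omega
    let P : Par n := mkPar n hn0 T hT hTne e he hen hed hcov
    have hP : Nat.card P.ι = T.card := by
      change Nat.card {q // q ∈ T} = _
      rw [Nat.card_eq_fintype_card, Fintype.card_coe]
    have hc2 : ∀ i, 2 ≤ P.c i := by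
      intro q
      have hq := Nat.prime_of_mem_primeFactors (hT q.2)
      have h1 : 2 ≤ n.factorization q.1 := by
        have h2 : q.1 ∈ n.primeFactors.filter (fun q => q ^ 2 ∣ n) := q.2
        rw [Finset.mem_filter] at h2
        exact (hq.pow_dvd_iff_le_factorization hn0).1 h2.2
      change 2 ≤ q.1 ^ (n.factorization q.1 - 1)
      calc 2 ≤ q.1 := hq.two_le
        _ = q.1 ^ 1 := (pow_one _).symm
        _ ≤ _ := Nat.pow_le_pow_right hq.pos (by omega)
    apply mem_det P hc2
    apply isBaseSize_of_lower hn0
    intro B hB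
    have := baseB P (fun q => mkPar_cd n hn0 T hT q) B hB
    rw [hP] at this
    have he' : P.e = e := rfl
    rw [he', hcard] at this
    exact this

/-- `ω + 1` is not in the determining set for bad `n` -/
theorem top_not_mem_det {n : ℕ} (hn : 2 ≤ n) (hg : ¬ Good n) :
    n.primeFactors.card + 1 ∉ DeterminingSet (DihedralGroup n) := by
  rintro ⟨V, hV, Γ, ⟨φ⟩, hb⟩
  have hn0 : n ≠ 0 := by omega
  unfold Good at hg
  push Not at hg
  obtain ⟨h1, p, hp, hp2, hpn, hpp⟩ := hg
  let _ : MulAction (DihedralGroup n) V := MulAction.compHom V φ.toMonoidHom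
  have hsm : ∀ (g : DihedralGroup n) (v : V), g • v = φ g v := fun g v => rfl
  have hfaith : FaithfulSMul (DihedralGroup n) V := ⟨by
    intro g h hgh
    apply φ.injective
    ext v
    exact hgh v⟩
  have hb' := (isBaseSize_iff φ (fun g v => rfl) (n.primeFactors.card + 1)).2 hb
  exact no_large_base_aux (n := n) (p := p) Γ
    (fun g v w => by rw [hsm, hsm]; exact (φ g).map_rel_iff)
    (fun f => ⟨φ.symm f, fun v => by rw [hsm]; simp⟩)
    (fun B hB => hb'.2 ⟨B, rfl, hB⟩) hn0 hp hp2 hpn hpp (h1 p hp hp2).1 (h1 p hp hp2).2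

theorem main (n : ℕ) (hn : 2 ≤ n) :
    BaseSizeSet (DihedralGroup n) = Set.Icc 1 (n.primeFactors.card + 1) ∧
    (Good n → DeterminingSet (DihedralGroup n) = Set.Icc 1 (n.primeFactors.card + 1)) ∧
    (¬ Good n → DeterminingSet (DihedralGroup n) = Set.Icc 1 n.primeFactors.card) ∧
    (DeterminingSet (DihedralGroup n) = BaseSizeSet (DihedralGroup n) ↔ Good n) := by
  have hn0 : n ≠ 0 := by omega
  have hB : BaseSizeSet (DihedralGroup n) = Set.Icc 1 (n.primeFactors.card + 1) := by
    apply Set.Subset.antisymm (baseSizeSet_subset hn0)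
    intro b hb
    rcases Nat.lt_or_ge b (n.primeFactors.card + 1) with h | h
    · exact det_subset_base _ (low_mem_det hn hb.1 (by omega))
    · have : b = n.primeFactors.card + 1 := le_antisymm hb.2 h
      rw [this]
      exact top_mem_base hn
  have hG : Good n → DeterminingSet (DihedralGroup n) = Set.Icc 1 (n.primeFactors.card + 1) := by
    intro hg
    apply Set.Subset.antisymm
    · rw [← hB]; exact det_subset_base _
    · intro b hb
      rcases Nat.lt_or_ge b (n.primeFactors.card + 1) with h | h
      · exact low_mem_det hn hb.1 (by omega)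
      · have : b = n.primeFactors.card + 1 := le_antisymm hb.2 h
        rw [this]
        exact top_mem_det hn hg
  have hNG : ¬ Good n → DeterminingSet (DihedralGroup n) = Set.Icc 1 n.primeFactors.card := by
    intro hg
    apply Set.Subset.antisymm
    · intro b hb
      have h1 := det_subset_base _ hb
      rw [hB] at h1
      refine ⟨h1.1, ?_⟩
      by_contra h2
      have : b = n.primeFactors.card + 1 := by
        have := h1.2; omega
      rw [this] at hb
      exact top_not_mem_det hn hg hb
    · intro b hb
      exact low_mem_det hn hb.1 hb.2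
  refine ⟨hB, hG, hNG, ?_, ?_⟩
  · intro h
    by_contra hg
    rw [hNG hg, hB] at h
    have h1 : n.primeFactors.card + 1 ∈ Set.Icc 1 n.primeFactors.card := by
      rw [h]; exact ⟨by omega, le_refl _⟩
    have := h1.2
    omega
  · intro hg
    rw [hG hg, hB]

end DihBase
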