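import Pool.Agent.V11265.Dih.Defs

namespace DihBase

open DihedralGroup

/-- `k ↦ 2k` from `ZMod n` to `ZMod D` when `D ∣ 2n`. -/
def dbl (n D : ℕ) (h : D ∣ 2 * n) : ZMod n →+ ZMod D :=
  ZMod.lift n ⟨zmultiplesHom (ZMod D) 2, by
    have h1 : ((2 * n : ℕ) : ZMod D) = 0 := (ZMod.natCast_eq_zero_iff _ _).2 h
    simp only [zmultiplesHom_apply, natCast_zsmul, nsmul_eq_mul]
    push_cast at h1
    rw [mul_comm]
    exact h1⟩

theorem dbl_intCast (n D : ℕ) (h : D ∣ 2 * n) (k : ℤ) :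
    dbl n D h (k : ZMod n) = ((2 * k : ℤ) : ZMod D) := by
  unfold dbl
  rw [ZMod.lift_coe]
  simp [mul_comm]

/-- The parameters of the graphs. -/
structure Par (n : ℕ) where
  ι : Type
  fι : Finite ι
  neι : Nonempty ι
  c : ι → ℕ
  d : ι → ℕ
  e : ℕ
  hn : n ≠ 0
  hdn : ∀ i, d i ∣ n
  hen : e ∣ n
  hcop : ∀ i j, i ≠ j → Nat.Coprime (d i) (d j)
  hed : ∀ i, Nat.Coprime e (d i)
  hlcm : ∀ k : ℤ, (∀ i, (d i : ℤ) ∣ k) → (e : ℤ) ∣ k → (n : ℤ) ∣ k
  hc1 : ∀ i, 1 ≤ c i
  hd2 : ∀ i, 2 ≤ d i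
  hcd : ∀ i, c i ∣ d i
  he : e = 1 ∨ e = 2

attribute [instance] Par.fι Par.neι

variable {n : ℕ}

/-- The vertices. -/
inductive Vtx (P : Par n) : Type
  | m1 | l1 | m2 | k2 | l2
  | T (s : ZMod 2)
  | F (i : P.ι) (y : ZMod (2 * P.c i))
  | X (i : P.ι) (x : ZMod (2 * P.d i))
  | Y (j : ZMod P.e)

open Vtx

variable (P : Par n)

/-- The (oriented) edges. -/
def R : Vtx P → Vtx P → Prop
  | l1, m1 => True
  | l2, k2 => True
  | k2, m2 => True
  | m1, T _ => True
  | m1, Y _ => True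
  | m1, X i x => ∃ z : ℤ, (z : ZMod (2 * P.d i)) = x ∧ (2 : ℤ) ∣ z
  | m2, T _ => True
  | m2, Y _ => True
  | m2, X i x => ∃ z : ℤ, (z : ZMod (2 * P.d i)) = x ∧ (2 : ℤ) ∣ z + 1
  | T s, F i y => ∃ z : ℤ, (z : ZMod (2 * P.c i)) = y ∧ (z : ZMod 2) = s
  | F i y, X j x => i = j ∧ ∃ z : ℤ, (z : ZMod (2 * P.d j)) = x ∧
      ((z : ZMod (2 * P.c i)) = y ∨ ((z - 1 : ℤ) : ZMod (2 * P.c i)) = y)
  | X i x, X j x' => i = j ∧ ∃ z : ℤ, (z : ZMod (2 * P.d i)) = x ∧
      ((z + 1 : ℤ) : ZMod (2 * P.d j)) = x'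
  | _, _ => False

/-- The graph. -/
def Gr : SimpleGraph (Vtx P) := SimpleGraph.fromRel (R P)

theorem Gr_adj (v w : Vtx P) : (Gr P).Adj v w ↔ v ≠ w ∧ (R P v w ∨ R P w v) := Iff.rfl

theorem P_d2 (i : P.ι) : 2 ≤ P.d i := P.hd2 i

theorem P_dvdC (i : P.ι) : 2 * P.c i ∣ 2 * n :=
  Nat.mul_dvd_mul_left 2 (dvd_trans (P.hcd i) (P.hdn i))

theorem P_dvdD (i : P.ι) : 2 * P.d i ∣ 2 * n := Nat.mul_dvd_mul_left 2 (P.hdn i)

instance : Finite (Vtx P) := by
  have : ∀ i, NeZero (2 * P.c i) := fun i => ⟨by have := P.hc1 i; omega⟩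
  have : ∀ i, NeZero (2 * P.d i) := fun i => ⟨by have := P_d2 P i; omega⟩
  have : NeZero P.e := ⟨by rcases P.he with h | h <;> omega⟩
  let f : Vtx P → (Fin 5 ⊕ ZMod 2) ⊕ ((Σ i : P.ι, ZMod (2 * P.c i)) ⊕ (Σ i : P.ι, ZMod (2 * P.d i)))
      ⊕ ZMod P.e := fun v => match v with
    | m1 => Sum.inl (Sum.inl 0)
    | l1 => Sum.inl (Sum.inl 1)
    | m2 => Sum.inl (Sum.inl 2)
    | k2 => Sum.inl (Sum.inl 3)
    | l2 => Sum.inl (Sum.inl 4)
    | T s => Sum.inl (Sum.inr s)
    | F i y => Sum.inr (Sum.inl (Sum.inl ⟨i, y⟩))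
    | X i x => Sum.inr (Sum.inl (Sum.inr ⟨i, x⟩))
    | Y j => Sum.inr (Sum.inr j)
  apply Finite.of_injective f
  intro v w h
  cases v <;> cases w <;> simp_all [f]

/-- the action of a dihedral element on the vertices -/
def actV : DihedralGroup n → Vtx P → Vtx P
  | _, m1 => m1
  | _, l1 => l1
  | _, m2 => m2
  | _, k2 => k2
  | _, l2 => l2
  | r _, T s => T s
  | sr _, T s => T (s + 1)
  | r k, F i y => F i (y + dbl n _ (P_dvdC P i) k)
  | sr k, F i y => F i (-(dbl n _ (P_dvdC P i) k) - 1 - y)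
  | r k, X i x => X i (x + dbl n _ (P_dvdD P i) k)
  | sr k, X i x => X i (-(dbl n _ (P_dvdD P i) k) - x)
  | r k, Y j => Y (j + ZMod.castHom P.hen (ZMod P.e) k)
  | sr k, Y j => Y (-(ZMod.castHom P.hen (ZMod P.e) k) - j)

instance : MulAction (DihedralGroup n) (Vtx P) where
  smul := actV P
  one_smul := by
    intro v
    change actV P 1 v = v
    rw [one_def]
    cases v <;> simp [actV]
  mul_smul := by
    intro g h v
    change actV P (g * h) v = actV P g (actV P h v)
    have h2 : ∀ s : ZMod 2, s + 1 + 1 = s := by decide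
    rcases g with k | k <;> rcases h with l | l <;> cases v <;>
      simp only [r_mul_r, r_mul_sr, sr_mul_r, sr_mul_sr, actV, map_add, map_sub, h2] <;>
      (congr 1; ring)

theorem smul_def (g : DihedralGroup n) (v : Vtx P) : g • v = actV P g v := rfl

theorem R_smul (g : DihedralGroup n) {v w : Vtx P} (h : R P v w) :
    R P (g • v) (g • w) ∨ R P (g • w) (g • v) := by
  rw [smul_def, smul_def]
  have h2 : (2 : ZMod 2) = 0 := rfl
  rcases g with k | k <;> obtain ⟨K, rfl⟩ := ZMod.intCast_surjective k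
  · left
    cases v <;> cases w <;> simp only [R] at h <;> simp only [actV, R, dbl_intCast]
    · obtain ⟨z, rfl, h1⟩ := h
      exact ⟨z + 2 * K, by push_cast; ring, by omega⟩
    · obtain ⟨z, rfl, h1⟩ := h
      exact ⟨z + 2 * K, by push_cast; ring, by omega⟩
    · obtain ⟨z, rfl, h1⟩ := h
      exact ⟨z + 2 * K, by push_cast; ring, by push_cast; rw [h2, h1]; ring⟩
    · obtain ⟨rfl, z, rfl, h1⟩ := h
      refine ⟨rfl, z + 2 * K, by push_cast; ring, ?_⟩
      rcases h1 with rfl | rfl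
      · left; push_cast; ring
      · right; push_cast; ring
    · obtain ⟨rfl, z, rfl, rfl⟩ := h
      exact ⟨rfl, z + 2 * K, by push_cast; ring, by push_cast; ring⟩
  · by_cases hX : ∃ i x j x', v = X i x ∧ w = X j x'
    · obtain ⟨i, x, j, x', rfl, rfl⟩ := hX
      right
      simp only [R] at h
      obtain ⟨rfl, z, rfl, rfl⟩ := h
      simp only [actV, R, dbl_intCast]
      exact ⟨trivial, -(2 * K) - z - 1, by push_cast; ring, by push_cast; ring⟩
    · left
      cases v <;> cases w <;> simp only [R] at h <;> simp only [actV, R, dbl_intCast]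
      · obtain ⟨z, rfl, h1⟩ := h
        exact ⟨- (2 * K) - z, by push_cast; ring, by omega⟩
      · obtain ⟨z, rfl, h1⟩ := h
        exact ⟨- (2 * K) - z, by push_cast; ring, by omega⟩
      · obtain ⟨z, rfl, h1⟩ := h
        refine ⟨- (2 * K) - 1 - z, by push_cast; ring, ?_⟩
        push_cast; rw [h2, h1]
        have : ∀ s : ZMod 2, -(0 * (K : ZMod 2)) - 1 - s = s + 1 := by
          intro s; rw [zero_mul]; revert s; decide
        rw [this]
      · obtain ⟨rfl, z, rfl, h1⟩ := h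
        refine ⟨rfl, - (2 * K) - z, by push_cast; ring, ?_⟩
        rcases h1 with rfl | rfl
        · right; push_cast; ring
        · left; push_cast; ring
      · exact absurd ⟨_, _, _, _, rfl, rfl⟩ hX

theorem adj_smul_of (g : DihedralGroup n) {v w : Vtx P} (h : (Gr P).Adj v w) :
    (Gr P).Adj (g • v) (g • w) := by
  rw [Gr_adj] at h ⊢
  refine ⟨fun h' => h.1 (smul_left_cancel g h'), ?_⟩
  rcases h.2 with h' | h'
  · exact R_smul P g h'
  · exact (R_smul P g h').symm

theorem adj_smul (g : DihedralGroup n) (v w : Vtx P) :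
    (Gr P).Adj (g • v) (g • w) ↔ (Gr P).Adj v w := by
  refine ⟨fun h => ?_, adj_smul_of P g⟩
  have := adj_smul_of P g⁻¹ h
  simpa using this

/-- The homomorphism from the dihedral group to the automorphism group. -/
def Phi : DihedralGroup n →* (Gr P ≃g Gr P) where
  toFun g := { toEquiv := MulAction.toPerm g, map_rel_iff' := fun {v w} => adj_smul P g v w }
  map_one' := by
    ext v
    exact one_smul (DihedralGroup n) v
  map_mul' g h := by
    ext v
    exact mul_smul g h v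

theorem Phi_apply (g : DihedralGroup n) (v : Vtx P) : Phi P g v = g • v := rfl

theorem Phi_injective : Function.Injective (Phi P) := by
  rw [injective_iff_map_eq_one]
  intro g hg
  have h1 : ∀ v : Vtx P, g • v = v := fun v => by
    rw [← Phi_apply, hg]; rfl
  rcases g with k | k
  · obtain ⟨K, rfl⟩ := ZMod.intCast_surjective k
    have h2 : (n : ℤ) ∣ K := by
      apply P.hlcm
      · intro i
        have := h1 (X i 0)
        rw [smul_def] at this
        simp only [actV, dbl_intCast, zero_add, X.injEq, heq_eq_eq, true_and] at this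
        rw [ZMod.intCast_zmod_eq_zero_iff_dvd] at this
        push_cast at this
        exact Int.dvd_of_mul_dvd_mul_left (by norm_num) this
      · have := h1 (Y 0)
        rw [smul_def] at this
        simp only [actV, zero_add, Y.injEq, map_intCast] at this
        rwa [ZMod.intCast_zmod_eq_zero_iff_dvd] at this
    rw [(ZMod.intCast_zmod_eq_zero_iff_dvd K n).2 h2, one_def]
  · exfalso
    have := h1 (T 0)
    rw [smul_def] at this
    simp [actV] at this

end DihBase
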