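import Pool.Agent.V11265.Dih.Auto

namespace DihBase

open DihedralGroup Vtx

variable {n : ℕ} {P : Par n}

theorem dvd_of_eq' {a b c : ℤ} (h : a ∣ b) (e : b = c) : a ∣ c := e ▸ h

theorem F_cast_inj {a b : P.ι} {u w : ℤ}
    (h : (F a (u : ZMod (2 * P.c a)) : Vtx P) = F b (w : ZMod (2 * P.c b))) :
    a = b ∧ (u : ZMod (2 * P.c a)) = (w : ZMod (2 * P.c a)) := by
  have h1 : a = b := by
    simp only [F.injEq] at h
    exact h.1
  subst h1
  simp only [F.injEq, heq_eq_eq, true_and] at h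
  exact ⟨rfl, h⟩

theorem X_cast_inj {a b : P.ι} {u w : ℤ}
    (h : (X a (u : ZMod (2 * P.d a)) : Vtx P) = X b (w : ZMod (2 * P.d b))) :
    a = b ∧ (u : ZMod (2 * P.d a)) = (w : ZMod (2 * P.d a)) := by
  have h1 : a = b := by
    simp only [X.injEq] at h
    exact h.1
  subst h1
  simp only [X.injEq, heq_eq_eq, true_and] at h
  exact ⟨rfl, h⟩

theorem cast_eq_iff_dvd {D : ℕ} {z w : ℤ} : (z : ZMod D) = w ↔ (D : ℤ) ∣ z - w := by
  rw [← sub_eq_zero, ← Int.cast_sub, ZMod.intCast_zmod_eq_zero_iff_dvd]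

section

variable (φ : Gr P ≃g Gr P) {t : ℤ} (ht : t = 0 ∨ t = 1) (hT : ∀ s : ZMod 2, φ (T s) = T (s + t))

include hT in
theorem F_parity {i a : P.ι} {y u : ℤ} (h : φ (F i y) = F a u) : (2 : ℤ) ∣ u - y - t := by
  have h1 := (phi_adj φ _ _).2 ((adj_T_F P (y : ZMod 2) i y).2 rfl)
  rw [hT, h, adj_T_F] at h1
  rw [← Int.cast_add, cast_two_iff] at h1
  omega

include hT in
theorem FX_image {i : P.ι} {z y : ℤ} (hy : y = z ∨ y = z - 1) {i' : P.ι} {w : ℤ}
    (hX : φ (X i z) = X i' w) :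
    ∃ u : ℤ, φ (F i y) = F i' u ∧ (u = w ∨ u = w - 1) ∧ (2 : ℤ) ∣ u - y - t := by
  obtain ⟨a, u, hu⟩ := phi_F φ i (y : ZMod (2 * P.c i))
  have h1 : (Gr P).Adj (F i y) (X i z) := by
    rw [adj_F_X]
    refine ⟨rfl, ?_⟩
    rcases hy with h | h
    · left; rw [h]
    · right; rw [h]
  have h2 := (phi_adj φ _ _).2 h1
  rw [hu, hX, adj_F_X] at h2
  obtain ⟨rfl, h2⟩ := h2
  rcases h2 with h2 | h2
  · rw [← h2] at hu
    exact ⟨w, hu, Or.inl rfl, F_parity φ hT hu⟩
  · rw [← h2] at hu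
    exact ⟨w - 1, hu, Or.inr rfl, F_parity φ hT hu⟩

include ht hT in
/-- images of `F i z`, `F i (z-1)` in terms of the image of `X i z` -/
theorem FX_image' {i : P.ι} {z : ℤ} {i' : P.ι} {w : ℤ} (hw : (2 : ℤ) ∣ w - z)
    (hX : φ (X i z) = X i' w) :
    φ (F i z) = F i' ((w - t : ℤ) : ZMod (2 * P.c i')) ∧
    φ (F i ((z - 1 : ℤ) : ZMod (2 * P.c i))) = F i' ((w - 1 + t : ℤ) : ZMod (2 * P.c i')) := by
  obtain ⟨u1, h1, h1', h1''⟩ := FX_image φ hT (y := z) (Or.inl rfl) hX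
  obtain ⟨u2, h2, h2', h2''⟩ := FX_image φ hT (y := z - 1) (Or.inr rfl) hX
  have e1 : u1 = w - t := by omega
  have e2 : u2 = w - 1 + t := by omega
  subst e1; subst e2
  exact ⟨h1, h2⟩

include ht hT in
theorem F_step {i a : P.ι} {z u : ℤ} (h : φ (F i z) = F a u) :
    φ (F i ((z - 1 : ℤ) : ZMod (2 * P.c i))) = F a ((u - (1 - 2 * t) : ℤ) : ZMod (2 * P.c a)) ∧
    φ (F i ((z + 1 : ℤ) : ZMod (2 * P.c i))) = F a ((u + (1 - 2 * t) : ℤ) : ZMod (2 * P.c a)) := by
  constructor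
  · obtain ⟨i', w, hX, hw⟩ := phi_X φ i z
    obtain ⟨h1, h2⟩ := FX_image' φ ht hT hw hX
    rw [h] at h1
    obtain ⟨rfl, h3⟩ := F_cast_inj h1
    rw [h2]
    congr 1
    push_cast at h3 ⊢
    rw [h3]; ring
  · obtain ⟨i', w, hX, hw⟩ := phi_X φ i (z + 1)
    obtain ⟨h1, h2⟩ := FX_image' φ ht hT hw hX
    rw [show z + 1 - 1 = z by ring, h] at h2
    obtain ⟨rfl, h3⟩ := F_cast_inj h2
    rw [h1]
    congr 1
    push_cast at h3 ⊢
    rw [h3]; ring

include ht hT in
theorem F_all (i : P.ι) : ∃ (a : P.ι) (u : ℤ), ∀ z : ℤ,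
    φ (F i z) = F a ((u + (1 - 2 * t) * z : ℤ) : ZMod (2 * P.c a)) := by
  obtain ⟨a, u, hu⟩ := phi_F φ i ((0 : ℤ) : ZMod (2 * P.c i))
  refine ⟨a, u, ?_⟩
  intro z
  induction z using Int.induction_on with
  | zero => rw [hu]; simp
  | succ m ih =>
    rw [(F_step φ ht hT ih).2]
    congr 2; ring
  | pred m ih =>
    rw [(F_step φ ht hT ih).1]
    congr 2; ring

variable (hc2 : ∀ i, 2 ≤ P.c i)

include ht hT hc2 in
theorem F_all' (i : P.ι) : ∃ u : ℤ, ∀ z : ℤ,
    φ (F i z) = F i ((u + (1 - 2 * t) * z : ℤ) : ZMod (2 * P.c i)) := by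
  obtain ⟨a, u, hu⟩ := F_all φ ht hT i
  have hai : a = i := by
    by_contra hne
    have h1 := hu 0
    have h2 := hu (2 * P.c i : ℕ)
    have h3 : (((2 * P.c i : ℕ) : ℤ) : ZMod (2 * P.c i)) = ((0 : ℤ) : ZMod (2 * P.c i)) := by
      rw [cast_eq_iff_dvd]; simp
    rw [h3, h1] at h2
    have h4 := (F_cast_inj h2).2
    rw [cast_eq_iff_dvd] at h4
    have h5 : (P.c a : ℤ) ∣ P.c i := by
      have h6 : ((2 * P.c a : ℕ) : ℤ) ∣ ((2 * P.c i : ℕ) : ℤ) := by
        rcases ht with rfl | rfl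
        · rw [show u + (1 - 2 * 0) * 0 - (u + (1 - 2 * 0) * ((2 * P.c i : ℕ) : ℤ)) = - ((2 * P.c i : ℕ) : ℤ) by ring] at h4
          exact (dvd_neg).1 h4
        · rw [show u + (1 - 2 * 1) * 0 - (u + (1 - 2 * 1) * ((2 * P.c i : ℕ) : ℤ)) = ((2 * P.c i : ℕ) : ℤ) by ring] at h4
          exact h4
      push_cast at h6
      exact Int.dvd_of_mul_dvd_mul_left (by norm_num) h6
    have h7 : P.c a ∣ P.c i := by exact_mod_cast h5
    have h8 := Nat.dvd_gcd (P.hcd a) (dvd_trans h7 (P.hcd i))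
    rw [P.hcop a i hne] at h8
    have := hc2 a
    have := Nat.le_of_dvd one_pos h8
    omega
  subst hai
  exact ⟨u, hu⟩

include ht hT hc2 in
theorem X_all (i : P.ι) : ∃ u v : ℤ, (∀ z : ℤ,
    φ (F i z) = F i ((u + (1 - 2 * t) * z : ℤ) : ZMod (2 * P.c i))) ∧
    (2 : ℤ) ∣ v ∧ ((2 * P.c i : ℕ) : ℤ) ∣ v - u - t ∧
    ∀ z : ℤ, φ (X i z) = X i ((v + (1 - 2 * t) * z : ℤ) : ZMod (2 * P.d i)) := by
  obtain ⟨u, hu⟩ := F_all' φ ht hT hc2 i
  -- image of X i z
  have h1 : ∀ z : ℤ, ∃ w : ℤ, φ (X i z) = X i w ∧ (2 : ℤ) ∣ w - z ∧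
      ((2 * P.c i : ℕ) : ℤ) ∣ w - (u + (1 - 2 * t) * z) - t := by
    intro z
    obtain ⟨i', w, hX, hw⟩ := phi_X φ i z
    obtain ⟨h1, h2⟩ := FX_image' φ ht hT hw hX
    rw [hu] at h1
    have h3 := F_cast_inj h1
    obtain ⟨h4, h5⟩ := h3
    subst h4
    refine ⟨w, hX, hw, ?_⟩
    rw [cast_eq_iff_dvd] at h5
    rw [← dvd_neg]
    exact dvd_of_eq' (h5) (by ring)
  obtain ⟨v, hv, hv2, hvc⟩ := h1 0
  have hstep : ∀ z w : ℤ, φ (X i z) = X i w → ((2 * P.c i : ℕ) : ℤ) ∣ w - (u + (1 - 2 * t) * z) - t →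
      φ (X i ((z + 1 : ℤ) : ZMod (2 * P.d i))) = X i ((w + (1 - 2 * t) : ℤ) : ZMod (2 * P.d i)) ∧
      φ (X i ((z - 1 : ℤ) : ZMod (2 * P.d i))) = X i ((w - (1 - 2 * t) : ℤ) : ZMod (2 * P.d i)) := by
    intro z w hw hwc
    have hc4 : (4 : ℤ) ≤ ((2 * P.c i : ℕ) : ℤ) := by
      have := hc2 i
      push_cast
      omega
    have hdiv : ((2 * P.c i : ℕ) : ℤ) ∣ ((2 * P.d i : ℕ) : ℤ) := by
      exact_mod_cast Nat.mul_dvd_mul_left 2 (P.hcd i)
    constructor
    · obtain ⟨w', hw', -, hwc'⟩ := h1 (z + 1)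
      have h2 := (phi_adj φ _ _).2 ((adj_X_X P i z _).2 (Or.inl rfl))
      rw [hw, hw', adj_X_X] at h2
      rw [hw']
      rcases h2 with h2 | h2
      · rcases ht with rfl | rfl
        · rw [h2]; congr 2
        · exfalso
          rw [cast_eq_iff_dvd] at h2
          have h3 := dvd_trans hdiv h2
          have h4 := dvd_sub (dvd_sub hwc' hwc) h3
          have h5 : ((2 * P.c i : ℕ) : ℤ) ∣ 2 := by
            exact dvd_of_eq' (h4) (by ring)
          have := Int.le_of_dvd (by norm_num) h5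
          omega
      · rcases ht with rfl | rfl
        · exfalso
          rw [cast_eq_iff_dvd] at h2
          have h3 := dvd_trans hdiv h2
          have h4 := dvd_sub (dvd_sub hwc' hwc) h3
          have h5 : ((2 * P.c i : ℕ) : ℤ) ∣ 2 := by
            rw [← dvd_neg]
            exact dvd_of_eq' (h4) (by ring)
          have := Int.le_of_dvd (by norm_num) h5
          omega
        · rw [h2]; congr 2
    · obtain ⟨w', hw', -, hwc'⟩ := h1 (z - 1)
      have h2 := (phi_adj φ _ _).2 ((adj_X_X P i z _).2 (Or.inr rfl))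
      rw [hw, hw', adj_X_X] at h2
      rw [hw']
      rcases h2 with h2 | h2
      · rcases ht with rfl | rfl
        · exfalso
          rw [cast_eq_iff_dvd] at h2
          have h3 := dvd_trans hdiv h2
          have h4 := dvd_sub (dvd_sub hwc' hwc) h3
          have h5 : ((2 * P.c i : ℕ) : ℤ) ∣ 2 := by
            exact dvd_of_eq' (h4) (by ring)
          have := Int.le_of_dvd (by norm_num) h5
          omega
        · rw [h2]; congr 2
      · rcases ht with rfl | rfl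
        · rw [h2]; congr 2
        · exfalso
          rw [cast_eq_iff_dvd] at h2
          have h3 := dvd_trans hdiv h2
          have h4 := dvd_sub (dvd_sub hwc' hwc) h3
          have h5 : ((2 * P.c i : ℕ) : ℤ) ∣ 2 := by
            rw [← dvd_neg]
            exact dvd_of_eq' (h4) (by ring)
          have := Int.le_of_dvd (by norm_num) h5
          omega
  refine ⟨u, v, hu, by simpa using hv2, by simpa using hvc, ?_⟩
  have hfin : ∀ z : ℤ, φ (X i z) = X i ((v + (1 - 2 * t) * z : ℤ) : ZMod (2 * P.d i)) ∧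
      ((2 * P.c i : ℕ) : ℤ) ∣ (v + (1 - 2 * t) * z) - (u + (1 - 2 * t) * z) - t := by
    intro z
    have e1 : ((2 * P.c i : ℕ) : ℤ) ∣ (v + (1 - 2 * t) * z) - (u + (1 - 2 * t) * z) - t := by
      exact dvd_of_eq' (hvc) (by ring)
    refine ⟨?_, e1⟩
    induction z using Int.induction_on with
    | zero => rw [hv]; simp
    | succ m ih =>
      have e2 : ((2 * P.c i : ℕ) : ℤ) ∣ (v + (1 - 2 * t) * (m : ℤ)) - (u + (1 - 2 * t) * (m : ℤ)) - t := by
        exact dvd_of_eq' (hvc) (by ring)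
      rw [(hstep _ _ (ih e2) e2).1]
      congr 2; ring
    | pred m ih =>
      have e2 : ((2 * P.c i : ℕ) : ℤ) ∣ (v + (1 - 2 * t) * (-(m : ℤ))) - (u + (1 - 2 * t) * (-(m : ℤ))) - t := by
        exact dvd_of_eq' (hvc) (by ring)
      rw [(hstep _ _ (ih e2) e2).2]
      congr 2; ring
  exact fun z => (hfin z).1

end

theorem small_mod {e : ℕ} (he : e = 1 ∨ e = 2) (g : ZMod e → ZMod e) (hg : Function.Injective g) :
    ∃ h : ℤ, ∀ j, g j = h + j := by
  rcases he with rfl | rfl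
  · exact ⟨0, fun j => Subsingleton.elim _ _⟩
  · have key2 : ∀ s : ZMod 2, s = 0 ∨ s = 1 := by decide
    have h01 : g 0 ≠ g 1 := fun h => by
      have := hg h
      exact absurd this (by decide)
    obtain ⟨h, hh⟩ := ZMod.intCast_surjective (g 0)
    refine ⟨h, ?_⟩
    have key : ∀ a b : ZMod 2, a ≠ b → b = a + 1 := by decide
    intro j
    rcases key2 j with rfl | rfl
    · rw [hh, add_zero]
    · rw [hh]; exact key _ _ h01

theorem small_neg {e : ℕ} (he : e = 1 ∨ e = 2) (x : ZMod e) : -x = x := by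
  rcases he with rfl | rfl
  · exact Subsingleton.elim _ _
  · revert x; decide

theorem crt_int {κ : Type*} [Finite κ] (d : κ → ℕ) (hd : ∀ i j, i ≠ j → Nat.Coprime (d i) (d j))
    (a : κ → ℤ) : ∃ k : ℤ, ∀ i, (d i : ℤ) ∣ k - a i := by
  have h := Ideal.exists_forall_sub_mem_ideal (R := ℤ) (I := fun i => Ideal.span {(d i : ℤ)}) (by
    intro i j hij
    change IsCoprime _ _
    rw [Ideal.isCoprime_span_singleton_iff, Nat.isCoprime_iff_coprime]
    exact hd i j hij) a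
  obtain ⟨k, hk⟩ := h
  exact ⟨k, fun i => Ideal.mem_span_singleton.1 (hk i)⟩

variable (P) in
theorem crt_par (a : P.ι → ℤ) (h : ℤ) : ∃ k : ℤ, (∀ i, (P.d i : ℤ) ∣ k - a i) ∧ (P.e : ℤ) ∣ k - h := by
  obtain ⟨k, hk⟩ := crt_int (κ := Option P.ι) (fun o => o.elim P.e P.d) (by
    intro i j hij
    cases i with
    | none =>
      cases j with
      | none => exact absurd rfl hij
      | some j => exact P.hed j
    | some i =>
      cases j with
      | none => exact (P.hed i).symm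
      | some j => exact P.hcop i j (fun h => hij (by rw [h]))) (fun o => o.elim h a)
  exact ⟨k, fun i => hk (some i), hk none⟩

theorem Phi_surjective (hc2 : ∀ i, 2 ≤ P.c i) : Function.Surjective (Phi P) := by
  intro φ
  obtain ⟨t, ht, hT⟩ := exists_t φ
  have hX := X_all φ ht hT hc2
  choose u v hF hv2 hvc hXX using hX
  -- Y part
  have hY := phi_Y φ
  choose g hg using hY
  have hginj : Function.Injective g := by
    intro a b hab
    have := φ.injective ((hg a).trans ((congrArg Y hab).trans (hg b).symm))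
    simpa using this
  obtain ⟨h, hh⟩ := small_mod P.he g hginj
  have hneg := fun x : ZMod P.e => small_neg P.he x
  choose v' hv' using hv2
  obtain ⟨k, hk1, hk2⟩ := crt_par P (fun i => (1 - 2 * t) * v' i) h
  have hkh : ((k : ℤ) : ZMod P.e) = h := by
    rw [cast_eq_iff_dvd]; exact hk2
  have hnat : ∀ i : P.ι, ((2 * P.c i : ℕ) : ℤ) ∣ ((2 * P.d i : ℕ) : ℤ) := fun i => by
    exact_mod_cast Nat.mul_dvd_mul_left 2 (P.hcd i)
  have hk1' : ∀ i, ((2 * P.d i : ℕ) : ℤ) ∣ 2 * k - (1 - 2 * t) * v i := by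
    intro i
    rw [hv' i]
    push_cast
    rw [show 2 * k - (1 - 2 * t) * (2 * v' i) = 2 * (k - (1 - 2 * t) * v' i) by ring]
    exact mul_dvd_mul_left 2 (hk1 i)
  rcases ht with rfl | rfl
  · refine ⟨r k, ?_⟩
    ext w
    rw [Phi_apply, smul_def]
    cases w with
    | m1 => rw [fix_m1]; rfl
    | l1 => rw [fix_l1]; rfl
    | m2 => rw [fix_m2]; rfl
    | k2 => rw [fix_k2]; rfl
    | l2 => rw [fix_l2]; rfl
    | T s => rw [hT]; simp [actV]
    | F i y =>
      obtain ⟨z, rfl⟩ := ZMod.intCast_surjective y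
      rw [hF]
      simp only [actV, dbl_intCast]
      congr 1
      rw [← Int.cast_add, cast_eq_iff_dvd]
      have h1 := dvd_trans (hnat i) (hk1' i)
      have h2 := dvd_add h1 (hvc i)
      exact dvd_of_eq' (h2) (by ring)
    | X i x =>
      obtain ⟨z, rfl⟩ := ZMod.intCast_surjective x
      rw [hXX]
      simp only [actV, dbl_intCast]
      congr 1
      rw [← Int.cast_add, cast_eq_iff_dvd]
      exact dvd_of_eq' (hk1' i) (by ring)
    | Y j =>
      rw [hg, hh]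
      simp only [actV, map_intCast]
      rw [hkh, add_comm]
  · refine ⟨sr k, ?_⟩
    ext w
    rw [Phi_apply, smul_def]
    cases w with
    | m1 => rw [fix_m1]; rfl
    | l1 => rw [fix_l1]; rfl
    | m2 => rw [fix_m2]; rfl
    | k2 => rw [fix_k2]; rfl
    | l2 => rw [fix_l2]; rfl
    | T s => rw [hT]; simp [actV]
    | F i y =>
      obtain ⟨z, rfl⟩ := ZMod.intCast_surjective y
      rw [hF]
      simp only [actV, dbl_intCast]
      congr 1
      have h1 := dvd_trans (hnat i) (hk1' i)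
      have h2 := dvd_sub (hvc i) h1
      have h3 : (((-(2 * k) - 1 - z) : ℤ) : ZMod (2 * P.c i)) = ((u i + (1 - 2 * 1) * z : ℤ) : ZMod (2 * P.c i)) := by
        rw [cast_eq_iff_dvd]
        exact dvd_of_eq' (h2) (by ring)
      rw [← h3]
      push_cast
      ring
    | X i x =>
      obtain ⟨z, rfl⟩ := ZMod.intCast_surjective x
      rw [hXX]
      simp only [actV, dbl_intCast]
      congr 1
      have h3 : (((-(2 * k) - z) : ℤ) : ZMod (2 * P.d i)) = ((v i + (1 - 2 * 1) * z : ℤ) : ZMod (2 * P.d i)) := by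
        rw [cast_eq_iff_dvd, ← dvd_neg]
        exact dvd_of_eq' (hk1' i) (by ring)
      rw [← h3]
      push_cast
      ring
    | Y j =>
      rw [hg, hh]
      simp only [actV, map_intCast]
      rw [hkh, hneg, sub_eq_add_neg, hneg]

/-- The dihedral group is isomorphic to the automorphism group of `Gr P`. -/
noncomputable def PhiEquiv (P : Par n) (hc2 : ∀ i, 2 ≤ P.c i) :
    DihedralGroup n ≃* (Gr P ≃g Gr P) :=
  MulEquiv.ofBijective (Phi P) ⟨Phi_injective P, Phi_surjective hc2⟩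

end DihBase
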